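import Pool.Agent.H59.KY.Strings

/-!
Basic facts about the family `B_λ`: independence of the simple roots, weights, uniqueness of the
highest and lowest weight elements, morphisms from `B_λ`.
-/

set_option autoImplicit false

open scoped Classical

namespace Pool.Agent.H59.KY

variable {C : Cartan}

/-- the simple roots are linearly independent -/
theorem root_indep (n : C.I → ℤ) (h : C.root n = 0) : n = 0 := by
  obtain ⟨d, hd, hsymm, hpos⟩ := C.pos
  by_contra hn
  have hx : (fun i => (n i : ℚ)) ≠ 0 := by
    intro h0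
    apply hn
    funext i
    have := congrFun h0 i
    simpa using this
  have h1 := hpos _ hx
  have h2 : ∀ i, ∑ j, (C.A i j : ℚ) * n j = 0 := by
    intro i
    have h3 : C.root n i = 0 := by rw [h]; rfl
    unfold Cartan.root at h3
    rw [Finset.sum_apply] at h3
    have h4 : ∑ j, C.A i j * n j = 0 := by
      rw [← h3]
      refine Finset.sum_congr rfl (fun j _ => ?_)
      rw [Pi.smul_apply, smul_eq_mul, Cartan.al, mul_comm]
    have h5 := congrArg (Int.cast : ℤ → ℚ) h4
    push_cast at h5
    exact h5
  have h3 : ∑ i, ∑ j, d i * C.A i j * (n i : ℚ) * n j = 0 := by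
    apply Finset.sum_eq_zero
    intro i _
    have : ∑ j, d i * C.A i j * (n i : ℚ) * n j = d i * n i * ∑ j, (C.A i j : ℚ) * n j := by
      rw [Finset.mul_sum]
      refine Finset.sum_congr rfl (fun j _ => ?_)
      ring
    rw [this, h2, mul_zero]
  rw [h3] at h1
  exact lt_irrefl _ h1

theorem root_add (m n : C.I → ℤ) : C.root (m + n) = C.root m + C.root n := by
  unfold Cartan.root
  rw [← Finset.sum_add_distrib]
  refine Finset.sum_congr rfl (fun j _ => ?_)
  rw [Pi.add_apply, add_smul]

theorem root_neg (n : C.I → ℤ) : C.root (-n) = - C.root n := by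
  unfold Cartan.root
  rw [← Finset.sum_neg_distrib]
  refine Finset.sum_congr rfl (fun j _ => ?_)
  rw [Pi.neg_apply, neg_smul]

theorem root_single (i : C.I) (k : ℤ) : C.root (Pi.single i k) = k • C.al i := by
  unfold Cartan.root
  rw [Finset.sum_eq_single i]
  · rw [Pi.single_eq_same]
  · intro j _ hj
    rw [Pi.single_eq_of_ne hj, zero_smul]
  · intro h
    exact absurd (Finset.mem_univ i) h

theorem al_ne_zero (i : C.I) : C.al i ≠ 0 := by
  intro h
  have := congrFun h i
  rw [Cartan.al, C.diag] at this
  norm_num at this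

/-- the weight after applying a word of `f`s -/
theorem wt_fword (X : Crystal C) (l : List C.I) (b b' : X.B) (h : X.fword l b = some b') :
    X.wt b' = X.wt b - C.root (fun j => (l.count j : ℤ)) := by
  induction l generalizing b' with
  | nil =>
    have h1 : some b = some b' := h
    have h2 : b = b' := Option.some.inj h1
    have h3 : C.root (fun j => (([] : List C.I).count j : ℤ)) = 0 := by
      unfold Cartan.root
      apply Finset.sum_eq_zero
      intro j _
      simp
    rw [h3, h2, sub_zero]
  | cons i l ih =>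
    have h1 : (X.fword l b).bind (X.f i) = some b' := h
    rw [Option.bind_eq_some_iff] at h1
    obtain ⟨b1, h2, h3⟩ := h1
    rw [X.wt_f i b1 b' h3, ih b1 h2]
    have h4 : (fun j => (((i :: l).count j : ℕ) : ℤ)) =
        (fun j => (l.count j : ℤ)) + Pi.single i 1 := by
      funext j
      rw [Pi.add_apply, List.count_cons]
      by_cases hj : j = i
      · subst hj; simp
      · rw [Pi.single_eq_of_ne hj]
        have : ¬ (i == j) = true := by
          simp only [beq_iff_eq]; exact fun h => hj h.symm
        simp [this]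
    rw [h4, root_add, root_single, one_smul]
    abel

variable (F : Family C)

theorem wt_hw_eq (lam : C.I → ℕ) : (F.B lam).wt (F.hw lam) = C.dom lam := by
  funext i
  exact F.wt_hw lam i

theorem dom_inj {lam mu : C.I → ℕ} (h : C.dom lam = C.dom mu) : lam = mu := by
  funext i
  have := congrFun h i
  unfold Cartan.dom at this
  exact_mod_cast this

theorem dom_add (lam mu : C.I → ℕ) : C.dom (lam + mu) = C.dom lam + C.dom mu := by
  funext i
  unfold Cartan.dom
  rw [Pi.add_apply, Pi.add_apply]
  push_cast
  rfl

/-- the weights of `B_λ` are in `λ - Q_+` -/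
theorem wt_le (lam : C.I → ℕ) (b : (F.B lam).B) :
    ∃ n : C.I → ℕ, (F.B lam).wt b = C.dom lam - C.root (fun j => (n j : ℤ)) := by
  obtain ⟨l, hl⟩ := F.gen lam b
  exact ⟨fun j => l.count j, by rw [wt_fword _ l _ _ hl, wt_hw_eq]⟩

/-- highest weight elements are unique -/
theorem hw_unique (lam : C.I → ℕ) (b : (F.B lam).B) (h : ∀ i, (F.B lam).e i b = none) :
    b = F.hw lam := by
  obtain ⟨l, hl⟩ := F.gen lam b
  cases l with
  | nil =>
    have h1 : some (F.hw lam) = some b := hl
    exact (Option.some.inj h1).symm
  | cons i l =>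
    have h1 : ((F.B lam).fword l (F.hw lam)).bind ((F.B lam).f i) = some b := hl
    rw [Option.bind_eq_some_iff] at h1
    obtain ⟨b1, h2, h3⟩ := h1
    have h4 := ((F.B lam).f_iff i b1 b).mp h3
    rw [h i] at h4
    exact absurd h4 (by simp)

/-- lowest weight elements are unique -/
theorem low_unique (lam : C.I → ℕ) (b : (F.B lam).B) (h : ∀ i, (F.B lam).f i b = none) :
    b = F.low lam := by
  have h1 : F.xi lam b = F.hw lam := by
    apply hw_unique
    intro i
    rw [F.e_xi, h]
    rfl
  unfold Family.low
  rw [← h1, F.xi_xi]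

theorem f_low (lam : C.I → ℕ) (i : C.I) : (F.B lam).f i (F.low lam) = none := by
  unfold Family.low
  rw [F.f_xi, F.e_hw]
  rfl

/-- the only element of weight `λ` -/
theorem hw_of_wt (lam : C.I → ℕ) (b : (F.B lam).B) (h : (F.B lam).wt b = C.dom lam) :
    b = F.hw lam := by
  obtain ⟨l, hl⟩ := F.gen lam b
  have h1 := wt_fword _ l _ _ hl
  rw [h, wt_hw_eq] at h1
  have h2 : C.root (fun j => (l.count j : ℤ)) = 0 := by
    have := sub_eq_self.mp h1.symm
    exact this
  have h3 := root_indep _ h2
  cases l with
  | nil =>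
    have h4 : some (F.hw lam) = some b := hl
    exact (Option.some.inj h4).symm
  | cons i l =>
    have h4 := congrFun h3 i
    simp only [Pi.zero_apply, Nat.cast_eq_zero] at h4
    rw [List.count_eq_zero] at h4
    exact absurd (List.mem_cons_self) h4

theorem eps_hw (lam : C.I → ℕ) (i : C.I) : (F.B lam).eps i (F.hw lam) = 0 :=
  (F.B lam).eps_none i _ (F.e_hw lam i)

theorem phi_hw (lam : C.I → ℕ) (i : C.I) : (F.B lam).phi i (F.hw lam) = lam i := by
  have h1 := (F.B lam).phi_eps i (F.hw lam)
  rw [eps_hw, F.wt_hw] at h1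
  push_cast at h1
  omega

/-- an element of weight `λ - m α_i` is `f_i^m b_λ` -/
theorem eq_down_of_wt (lam : C.I → ℕ) (i : C.I) (m : ℕ) (b : (F.B lam).B)
    (h : (F.B lam).wt b = C.dom lam - (m : ℤ) • C.al i) :
    m ≤ lam i ∧ b = (F.B lam).down i m (F.hw lam) := by
  obtain ⟨l, hl⟩ := F.gen lam b
  have h1 := wt_fword _ l _ _ hl
  rw [h, wt_hw_eq] at h1
  have h2 : C.root (fun j => (l.count j : ℤ)) = (m : ℤ) • C.al i := by
    have := sub_right_injective h1
    exact this.symm
  have h3 : C.root ((fun j => (l.count j : ℤ)) + -(Pi.single i (m : ℤ))) = 0 := by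
    rw [root_add, root_neg, root_single, h2, add_neg_cancel]
  have h4 := root_indep _ h3
  have h5 : ∀ j, (l.count j : ℤ) = (Pi.single i (m : ℤ) : C.I → ℤ) j := by
    intro j
    have := congrFun h4 j
    simp only [Pi.add_apply, Pi.neg_apply, Pi.zero_apply] at this
    omega
  have h6 : l = List.replicate m i := by
    rw [List.eq_replicate_iff]
    have hall : ∀ j ∈ l, j = i := by
      intro j hj
      by_contra hji
      have h7 := h5 j
      rw [Pi.single_eq_of_ne hji] at h7
      have h8 : l.count j = 0 := by exact_mod_cast h7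
      rw [List.count_eq_zero] at h8
      exact h8 hj
    refine ⟨?_, hall⟩
    have h7 := h5 i
    rw [Pi.single_eq_same] at h7
    have h8 : l.count i = m := by exact_mod_cast h7
    rw [← h8]
    rw [List.count_eq_length.mpr]
    intro j hj
    exact (hall j hj).symm
  rw [h6] at hl
  have h7 := (F.B lam).fword_replicate_some i m _ _ hl
  rw [phi_hw] at h7
  exact ⟨h7.1, h7.2.symm⟩

/-- `eps_j (f_i^m b_λ) = 0` for `j ≠ i` -/
theorem eps_down_ne (lam : C.I → ℕ) (i j : C.I) (hij : j ≠ i) (m : ℕ) (hm : m ≤ lam i) :
    (F.B lam).eps j ((F.B lam).down i m (F.hw lam)) = 0 := by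
  cases h : (F.B lam).e j ((F.B lam).down i m (F.hw lam)) with
  | none => exact (F.B lam).eps_none j _ h
  | some b' =>
    exfalso
    have h1 := (F.B lam).wt_e j _ _ h
    rw [(F.B lam).wt_down i m _ (by rw [phi_hw]; exact hm), wt_hw_eq] at h1
    obtain ⟨n, hn⟩ := wt_le F lam b'
    rw [hn] at h1
    have h2 : C.root ((fun k => (n k : ℤ)) + -(Pi.single i (m : ℤ)) + Pi.single j 1) = 0 := by
      rw [root_add, root_add, root_neg, root_single, root_single, one_smul]
      have h3 : C.dom lam - C.root (fun j => (n j : ℤ)) -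
        (C.dom lam - (m : ℤ) • C.al i + C.al j) = 0 := by rw [h1, sub_self]
      have h4 : C.root (fun j => (n j : ℤ)) + -((m : ℤ) • C.al i) + C.al j =
        -(C.dom lam - C.root (fun j => (n j : ℤ)) - (C.dom lam - (m : ℤ) • C.al i + C.al j)) := by
        abel
      rw [h4, h3, neg_zero]
    have h3 := congrFun (root_indep _ h2) j
    simp only [Pi.add_apply, Pi.neg_apply, Pi.single_eq_same, Pi.single_eq_of_ne hij,
      Pi.zero_apply] at h3
    omega

/-- morphisms from `B_λ` are determined by the image of the highest weight element -/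
theorem mor_ext (lam : C.I → ℕ) {Y : Crystal C} (g g' : Mor (F.B lam) Y)
    (h : g.map (F.hw lam) = g'.map (F.hw lam)) (b : (F.B lam).B) : g.map b = g'.map b := by
  obtain ⟨l, hl⟩ := F.gen lam b
  have h1 := g.fword_map l (F.hw lam)
  have h2 := g'.fword_map l (F.hw lam)
  rw [hl] at h1 h2
  rw [h, h2] at h1
  exact (Option.some.inj h1).symm

/-- a highest weight element of the tensor product -/
theorem tensor_hw (lam mu : C.I → ℕ) (a : (F.B lam).B) (b : (F.B mu).B) :
    (∀ i, (F.T lam mu).e i (a, b) = none) ↔
      b = F.hw mu ∧ ∀ i, (F.B lam).eps i a ≤ mu i := by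
  constructor
  · intro h
    have h1 : ∀ i, (F.B mu).e i b = none ∧ (F.B lam).eps i a ≤ (F.B mu).phi i b := by
      intro i
      have h2 := h i
      change (if (F.B mu).phi i b < (F.B lam).eps i a then _ else _) = none at h2
      split_ifs at h2 with h3
      · exfalso
        obtain ⟨a', ha'⟩ := (F.B lam).e_ne_none i a (by omega)
        change ((F.B lam).e i a).map _ = none at h2
        rw [ha'] at h2
        exact absurd h2 (by simp)
      · change ((F.B mu).e i b).map _ = none at h2
        rw [Option.map_eq_none_iff] at h2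
        exact ⟨h2, by omega⟩
    have h4 := hw_unique F mu b (fun i => (h1 i).1)
    refine ⟨h4, fun i => ?_⟩
    have := (h1 i).2
    rw [h4, phi_hw] at this
    exact this
  · rintro ⟨rfl, h⟩ i
    have h3 : ¬ ((F.B mu).phi i (F.hw mu) < (F.B lam).eps i a) := by
      rw [phi_hw]; exact not_lt.mpr (h i)
    change (if (F.B mu).phi i (F.hw mu) < (F.B lam).eps i a then _ else _) = none
    rw [if_neg h3]
    change ((F.B mu).e i (F.hw mu)).map _ = none
    rw [F.e_hw]
    rfl

/-- a lowest weight element of the tensor product -/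
theorem tensor_low (lam mu : C.I → ℕ) (a : (F.B lam).B) (b : (F.B mu).B)
    (h : ∀ i, (F.T lam mu).f i (a, b) = none) : a = F.low lam := by
  apply low_unique
  intro i
  have h2 := h i
  change (if (F.B mu).phi i b ≤ (F.B lam).eps i a then _ else _) = none at h2
  split_ifs at h2 with h3
  · change ((F.B lam).f i a).map _ = none at h2
    rwa [Option.map_eq_none_iff] at h2
  · exfalso
    obtain ⟨b', hb'⟩ := (F.B mu).f_ne_none i b (by omega)
    change ((F.B mu).f i b).map _ = none at h2
    rw [hb'] at h2
    exact absurd h2 (by simp)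

end Pool.Agent.H59.KY
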