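import Pool.Agent.H59.KY.Basic

/-!
The relation `Th`: symmetry, uniqueness, composition (Lemma 1 of note 2884).
-/

set_option autoImplicit false

open scoped Classical

namespace Pool.Agent.H59.KY

variable {C : Cartan} (F : Family C)

/-- composition of morphisms -/
def Mor.comp {X Y Z : Crystal C} (h : Mor Y Z) (g : Mor X Y) : Mor X Z where
  map := fun b => h.map (g.map b)
  map_e := by
    intro i b
    rw [h.map_e, g.map_e, Option.map_map]
    rfl
  map_f := by
    intro i b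
    rw [h.map_f, g.map_f, Option.map_map]
    rfl
  map_wt := by
    intro b
    rw [h.map_wt, g.map_wt]

/-- `g ⊗ id` -/
def Mor.left {X X' : Crystal C} (g : Mor X X') (Y : Crystal C) : Mor (X.tensor Y) (X'.tensor Y) where
  map := fun z => (g.map z.1, z.2)
  map_e := by
    rintro i ⟨a, b⟩
    change (if Y.phi i b < X'.eps i (g.map a) then (X'.e i (g.map a)).map (fun x => (x, b))
      else (Y.e i b).map (fun x => (g.map a, x))) =
      Option.map (fun z : X.B × Y.B => (g.map z.1, z.2)) (if Y.phi i b < X.eps i a then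
        (X.e i a).map (fun x => (x, b)) else (Y.e i b).map (fun x => (a, x)))
    rw [g.eps_map, g.map_e]
    split_ifs
    · rw [Option.map_map, Option.map_map]; rfl
    · rw [Option.map_map]; rfl
  map_f := by
    rintro i ⟨a, b⟩
    change (if Y.phi i b ≤ X'.eps i (g.map a) then (X'.f i (g.map a)).map (fun x => (x, b))
      else (Y.f i b).map (fun x => (g.map a, x))) =
      Option.map (fun z : X.B × Y.B => (g.map z.1, z.2)) (if Y.phi i b ≤ X.eps i a then
        (X.f i a).map (fun x => (x, b)) else (Y.f i b).map (fun x => (a, x)))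
    rw [g.eps_map, g.map_f]
    split_ifs
    · rw [Option.map_map, Option.map_map]; rfl
    · rw [Option.map_map]; rfl
  map_wt := by
    rintro ⟨a, b⟩
    change X'.wt (g.map a) + Y.wt b = X.wt a + Y.wt b
    rw [g.map_wt]

/-- `id ⊗ g` -/
def Mor.right {Y Y' : Crystal C} (X : Crystal C) (g : Mor Y Y') : Mor (X.tensor Y) (X.tensor Y') where
  map := fun z => (z.1, g.map z.2)
  map_e := by
    rintro i ⟨a, b⟩
    change (if Y'.phi i (g.map b) < X.eps i a then (X.e i a).map (fun x => (x, g.map b))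
      else (Y'.e i (g.map b)).map (fun x => (a, x))) =
      Option.map (fun z : X.B × Y.B => (z.1, g.map z.2)) (if Y.phi i b < X.eps i a then
        (X.e i a).map (fun x => (x, b)) else (Y.e i b).map (fun x => (a, x)))
    rw [g.phi_map, g.map_e]
    split_ifs
    · rw [Option.map_map]; rfl
    · rw [Option.map_map, Option.map_map]; rfl
  map_f := by
    rintro i ⟨a, b⟩
    change (if Y'.phi i (g.map b) ≤ X.eps i a then (X.f i a).map (fun x => (x, g.map b))
      else (Y'.f i (g.map b)).map (fun x => (a, x))) =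
      Option.map (fun z : X.B × Y.B => (z.1, g.map z.2)) (if Y.phi i b ≤ X.eps i a then
        (X.f i a).map (fun x => (x, b)) else (Y.f i b).map (fun x => (a, x)))
    rw [g.phi_map, g.map_f]
    split_ifs
    · rw [Option.map_map]; rfl
    · rw [Option.map_map, Option.map_map]; rfl
  map_wt := by
    rintro ⟨a, b⟩
    change X.wt a + Y'.wt (g.map b) = X.wt a + Y.wt b
    rw [g.map_wt]

/-- associativity of the tensor product -/
def Mor.assoc (X Y Z : Crystal C) : Mor (X.tensor (Y.tensor Z)) ((X.tensor Y).tensor Z) where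
  map := fun z => ((z.1, z.2.1), z.2.2)
  map_e := by
    rintro i ⟨a, b, c⟩
    change (if Z.phi i c < Y.eps i b + (X.eps i a - Y.phi i b) then
        (if Y.phi i b < X.eps i a then (X.e i a).map (fun x => (x, b))
          else (Y.e i b).map (fun x => (a, x))).map (fun x : X.B × Y.B => (x, c))
        else (Z.e i c).map (fun x => ((a, b), x))) =
      Option.map (fun z : X.B × (Y.B × Z.B) => ((z.1, z.2.1), z.2.2))
      (if Y.phi i b + (Z.phi i c - Y.eps i b) < X.eps i a then
        (X.e i a).map (fun x => (x, (b, c))) else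
        (if Z.phi i c < Y.eps i b then (Y.e i b).map (fun x => (x, c))
          else (Z.e i c).map (fun x => (b, x))).map (fun x : Y.B × Z.B => (a, x)))
    by_cases h1 : Y.phi i b + (Z.phi i c - Y.eps i b) < X.eps i a
    · rw [if_pos h1, if_pos (show Z.phi i c < Y.eps i b + (X.eps i a - Y.phi i b) by omega),
        if_pos (show Y.phi i b < X.eps i a by omega), Option.map_map, Option.map_map]
      rfl
    · rw [if_neg h1]
      by_cases h2 : Z.phi i c < Y.eps i b
      · rw [if_pos h2, if_pos (show Z.phi i c < Y.eps i b + (X.eps i a - Y.phi i b) by omega),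
          if_neg (show ¬ Y.phi i b < X.eps i a by omega), Option.map_map, Option.map_map,
          Option.map_map]
        rfl
      · rw [if_neg h2, if_neg (show ¬ Z.phi i c < Y.eps i b + (X.eps i a - Y.phi i b) by omega),
          Option.map_map, Option.map_map]
        rfl
  map_f := by
    rintro i ⟨a, b, c⟩
    change (if Z.phi i c ≤ Y.eps i b + (X.eps i a - Y.phi i b) then
        (if Y.phi i b ≤ X.eps i a then (X.f i a).map (fun x => (x, b))
          else (Y.f i b).map (fun x => (a, x))).map (fun x : X.B × Y.B => (x, c))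
        else (Z.f i c).map (fun x => ((a, b), x))) =
      Option.map (fun z : X.B × (Y.B × Z.B) => ((z.1, z.2.1), z.2.2))
      (if Y.phi i b + (Z.phi i c - Y.eps i b) ≤ X.eps i a then
        (X.f i a).map (fun x => (x, (b, c))) else
        (if Z.phi i c ≤ Y.eps i b then (Y.f i b).map (fun x => (x, c))
          else (Z.f i c).map (fun x => (b, x))).map (fun x : Y.B × Z.B => (a, x)))
    by_cases h1 : Y.phi i b + (Z.phi i c - Y.eps i b) ≤ X.eps i a
    · rw [if_pos h1, if_pos (show Z.phi i c ≤ Y.eps i b + (X.eps i a - Y.phi i b) by omega),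
        if_pos (show Y.phi i b ≤ X.eps i a by omega), Option.map_map, Option.map_map]
      rfl
    · rw [if_neg h1]
      by_cases h2 : Z.phi i c ≤ Y.eps i b
      · rw [if_pos h2, if_pos (show Z.phi i c ≤ Y.eps i b + (X.eps i a - Y.phi i b) by omega),
          if_neg (show ¬ Y.phi i b ≤ X.eps i a by omega), Option.map_map, Option.map_map,
          Option.map_map]
        rfl
      · rw [if_neg h2, if_neg (show ¬ Z.phi i c ≤ Y.eps i b + (X.eps i a - Y.phi i b) by omega),
          Option.map_map, Option.map_map]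
        rfl
  map_wt := by
    rintro ⟨a, b, c⟩
    change X.wt a + Y.wt b + Z.wt c = X.wt a + (Y.wt b + Z.wt c)
    rw [add_assoc]

/-- the anti-isomorphism `x ⊗ y ↦ xi y ⊗ xi x` -/
def Family.X (lam mu : C.I → ℕ) (z : (F.T lam mu).B) : (F.T mu lam).B :=
  (F.xi mu z.2, F.xi lam z.1)

theorem eps_xi (lam : C.I → ℕ) (i : C.I) (b : (F.B lam).B) :
    (F.B lam).eps i (F.xi lam b) = (F.B lam).phi (F.star i) b := by
  induction hn : (F.B lam).phi (F.star i) b generalizing b with
  | zero =>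
    cases h : (F.B lam).f (F.star i) b with
    | none =>
      have : (F.B lam).e i (F.xi lam b) = none := by rw [F.e_xi, h]; rfl
      exact (F.B lam).eps_none i _ this
    | some b' =>
      have := (F.B lam).phi_some _ _ _ h
      omega
  | succ n ih =>
    obtain ⟨b', hb'⟩ := (F.B lam).f_ne_none (F.star i) b (by omega)
    have h1 := (F.B lam).phi_some _ _ _ hb'
    have h2 : (F.B lam).e i (F.xi lam b) = some (F.xi lam b') := by rw [F.e_xi, hb']; rfl
    rw [(F.B lam).eps_some i _ _ h2, ih b' (by omega)]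

theorem phi_xi (lam : C.I → ℕ) (i : C.I) (b : (F.B lam).B) :
    (F.B lam).phi i (F.xi lam b) = (F.B lam).eps (F.star i) b := by
  have h := eps_xi F lam (F.star i) (F.xi lam b)
  rw [F.xi_xi, F.star_star] at h
  exact h.symm

theorem X_e (lam mu : C.I → ℕ) (i : C.I) (z : (F.T lam mu).B) :
    (F.T mu lam).e i (F.X lam mu z) = ((F.T lam mu).f (F.star i) z).map (F.X lam mu) := by
  obtain ⟨a, b⟩ := z
  change (if (F.B lam).phi i (F.xi lam a) < (F.B mu).eps i (F.xi mu b) then
      ((F.B mu).e i (F.xi mu b)).map (fun x => (x, F.xi lam a))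
    else ((F.B lam).e i (F.xi lam a)).map (fun x => (F.xi mu b, x))) =
    Option.map (F.X lam mu) (if (F.B mu).phi (F.star i) b ≤ (F.B lam).eps (F.star i) a then
      ((F.B lam).f (F.star i) a).map (fun x => (x, b))
    else ((F.B mu).f (F.star i) b).map (fun x => (a, x)))
  rw [phi_xi, eps_xi]
  by_cases h : (F.B mu).phi (F.star i) b ≤ (F.B lam).eps (F.star i) a
  · rw [if_neg (by omega), if_pos h, F.e_xi, Option.map_map, Option.map_map]
    rfl
  · rw [if_pos (by omega), if_neg h, F.e_xi, Option.map_map, Option.map_map]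
    rfl

theorem X_f (lam mu : C.I → ℕ) (i : C.I) (z : (F.T lam mu).B) :
    (F.T mu lam).f i (F.X lam mu z) = ((F.T lam mu).e (F.star i) z).map (F.X lam mu) := by
  obtain ⟨a, b⟩ := z
  change (if (F.B lam).phi i (F.xi lam a) ≤ (F.B mu).eps i (F.xi mu b) then
      ((F.B mu).f i (F.xi mu b)).map (fun x => (x, F.xi lam a))
    else ((F.B lam).f i (F.xi lam a)).map (fun x => (F.xi mu b, x))) =
    Option.map (F.X lam mu) (if (F.B mu).phi (F.star i) b < (F.B lam).eps (F.star i) a then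
      ((F.B lam).e (F.star i) a).map (fun x => (x, b))
    else ((F.B mu).e (F.star i) b).map (fun x => (a, x)))
  rw [phi_xi, eps_xi]
  by_cases h : (F.B mu).phi (F.star i) b < (F.B lam).eps (F.star i) a
  · rw [if_neg (by omega), if_pos h, F.f_xi, Option.map_map, Option.map_map]
    rfl
  · rw [if_pos (by omega), if_neg h, F.f_xi, Option.map_map, Option.map_map]
    rfl

theorem X_wt (lam mu : C.I → ℕ) (z : (F.T lam mu).B) :
    (F.T mu lam).wt (F.X lam mu z) = F.w0 ((F.T lam mu).wt z) := by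
  obtain ⟨a, b⟩ := z
  change (F.B mu).wt (F.xi mu b) + (F.B lam).wt (F.xi lam a) =
    F.w0 ((F.B lam).wt a + (F.B mu).wt b)
  rw [F.wt_xi, F.wt_xi, map_add, add_comm]

theorem w0_w0 (lam : C.I → ℕ) (b : (F.B lam).B) :
    F.w0 (F.w0 ((F.B lam).wt b)) = (F.B lam).wt b := by
  rw [← F.wt_xi, ← F.wt_xi, F.xi_xi]

theorem X_X (lam mu : C.I → ℕ) (z : (F.T lam mu).B) : F.X mu lam (F.X lam mu z) = z := by
  obtain ⟨a, b⟩ := z
  change (F.xi lam (F.xi lam a), F.xi mu (F.xi mu b)) = (a, b)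
  rw [F.xi_xi, F.xi_xi]

/-- conjugate of a morphism -/
def Family.conj {nu lam mu : C.I → ℕ} (g : Mor (F.B nu) (F.T lam mu)) :
    Mor (F.B nu) (F.T mu lam) where
  map := fun t => F.X lam mu (g.map (F.xi nu t))
  map_e := by
    intro i t
    rw [X_e, g.map_f, F.f_xi, F.star_star, Option.map_map, Option.map_map]
    congr 1
  map_f := by
    intro i t
    rw [X_f, g.map_e, F.e_xi, F.star_star, Option.map_map, Option.map_map]
    congr 1
  map_wt := by
    intro t
    rw [X_wt, g.map_wt, F.wt_xi, w0_w0]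

theorem Th_exists (lam mu : C.I → ℕ) (c : (F.B mu).B) (h : ∀ i, (F.B mu).eps i c ≤ lam i) :
    ∃ b, F.Th lam mu c b := by
  obtain ⟨nu, g, hg⟩ := F.tens mu lam (c, F.hw lam) ((tensor_hw F mu lam c (F.hw lam)).mpr ⟨rfl, h⟩)
  have h1 : ∀ i, (F.T mu lam).f i (g.map (F.low nu)) = none := by
    intro i
    rw [g.map_f, f_low]
    rfl
  have h2 := tensor_low F mu lam (g.map (F.low nu)).1 (g.map (F.low nu)).2 h1
  refine ⟨F.xi lam (g.map (F.low nu)).2, nu, g, hg, ?_⟩
  rw [F.xi_xi, ← h2]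
  rfl

theorem Th_eps {lam mu : C.I → ℕ} {c : (F.B mu).B} {b : (F.B lam).B} (h : F.Th lam mu c b)
    (i : C.I) : (F.B mu).eps i c ≤ lam i := by
  obtain ⟨nu, g, hg, -⟩ := h
  refine ((tensor_hw F mu lam c (F.hw lam)).mp ?_).2 i
  intro j
  rw [← hg, g.map_e, F.e_hw]
  rfl

theorem Th_symm {lam mu : C.I → ℕ} {c : (F.B mu).B} {b : (F.B lam).B} (h : F.Th lam mu c b) :
    F.Th mu lam b c := by
  obtain ⟨nu, g, hg, hl⟩ := h
  refine ⟨nu, F.conj g, ?_, ?_⟩
  · change F.X mu lam (g.map (F.low nu)) = _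
    rw [hl]
    change (F.xi lam (F.xi lam b), F.xi mu (F.xi mu (F.hw mu))) = _
    rw [F.xi_xi, F.xi_xi]
  · change F.X mu lam (g.map (F.xi nu (F.xi nu (F.hw nu)))) = _
    rw [F.xi_xi, hg]
    rfl

theorem Th_unique {lam mu : C.I → ℕ} {c : (F.B mu).B} {b b' : (F.B lam).B}
    (h : F.Th lam mu c b) (h' : F.Th lam mu c b') : b = b' := by
  obtain ⟨nu, g, hg, hl⟩ := h
  obtain ⟨nu', g', hg', hl'⟩ := h'
  have hnu : nu = nu' := by
    apply dom_inj (C := C)
    rw [← wt_hw_eq F nu, ← wt_hw_eq F nu', ← g.map_wt, ← g'.map_wt, hg, hg']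
  subst hnu
  have h1 := mor_ext F nu g g' (by rw [hg, hg']) (F.low nu)
  rw [hl, hl'] at h1
  have h2 := (Prod.mk.inj h1).2
  rw [← F.xi_xi lam b, h2, F.xi_xi]

theorem Th_wt {lam mu : C.I → ℕ} {c : (F.B mu).B} {b : (F.B lam).B} (h : F.Th lam mu c b) :
    (F.B lam).wt b + C.dom mu = (F.B mu).wt c + C.dom lam := by
  obtain ⟨nu, g, hg, hl⟩ := h
  have h1 : (F.T mu lam).wt (c, F.hw lam) = (F.B nu).wt (F.hw nu) := by rw [← hg, g.map_wt]
  have h2 : (F.T lam mu).wt (F.X mu lam (F.low mu, F.xi lam b)) = (F.B nu).wt (F.hw nu) := by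
    rw [X_wt, ← hl, g.map_wt, ← F.wt_xi]
    unfold Family.low
    rw [F.xi_xi]
  have h3 : (F.B mu).wt c + (F.B lam).wt (F.hw lam) = (F.B nu).wt (F.hw nu) := h1
  have h4 : (F.B lam).wt (F.xi lam (F.xi lam b)) + (F.B mu).wt (F.xi mu (F.xi mu (F.hw mu))) =
    (F.B nu).wt (F.hw nu) := h2
  rw [F.xi_xi, F.xi_xi] at h4
  rw [wt_hw_eq] at h3
  rw [wt_hw_eq F mu] at h4
  rw [h3, h4]

theorem Th_hw (lam mu : C.I → ℕ) : F.Th lam mu (F.hw mu) (F.hw lam) := by
  obtain ⟨b, hb⟩ := Th_exists F lam mu (F.hw mu) (by intro i; rw [eps_hw]; exact Nat.zero_le _)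
  have h1 := Th_wt F hb
  rw [wt_hw_eq, add_comm] at h1
  have h2 := hw_of_wt F lam b (add_left_cancel h1)
  rw [← h2]
  exact hb

/-- the standard copy of `B_(l1+l2)` in `B_l2 ⊗ B_l1` -/
theorem J_exists (l l1 l2 : C.I → ℕ) (hl : l = l1 + l2) :
    ∃ J : Mor (F.B l) (F.T l2 l1), J.map (F.hw l) = (F.hw l2, F.hw l1) := by
  obtain ⟨nu, g, hg⟩ := F.tens l2 l1 (F.hw l2, F.hw l1)
    ((tensor_hw F l2 l1 _ _).mpr ⟨rfl, by intro i; rw [eps_hw]; exact Nat.zero_le _⟩)
  have hnu : nu = l := by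
    apply dom_inj (C := C)
    rw [← wt_hw_eq F nu, ← g.map_wt, hg, hl, dom_add]
    change (F.B l2).wt (F.hw l2) + (F.B l1).wt (F.hw l1) = _
    rw [wt_hw_eq, wt_hw_eq, add_comm]
  subst hnu
  exact ⟨g, hg⟩

/-- Lemma 1 of note 2884 -/
theorem Th_comp {l l1 l2 mu nu : C.I → ℕ} (hl : l = l1 + l2) {c : (F.B mu).B}
    {b0 : (F.B l1).B} {d : (F.B nu).B} {y : (F.B l2).B} (e0 : Mor (F.B nu) (F.T mu l1))
    (h1 : e0.map (F.low nu) = (F.low mu, F.xi l1 b0)) (h2 : e0.map d = (c, F.hw l1))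
    (hd : F.Th l2 nu d y) :
    ∃ b, F.Th l mu c b ∧ ∀ J : Mor (F.B l) (F.T l2 l1), J.map (F.hw l) = (F.hw l2, F.hw l1) →
      J.map b = (y, b0) := by
  have heps : ∀ i, (F.B mu).eps i c ≤ l i := by
    intro i
    have h3 := e0.eps_map i d
    rw [h2] at h3
    have h4 : (F.B l1).eps i (F.hw l1) + ((F.B mu).eps i c - (F.B l1).phi i (F.hw l1)) =
      (F.B nu).eps i d := h3
    have h5 := Th_eps F hd i
    rw [eps_hw, phi_hw] at h4
    rw [hl, Pi.add_apply]
    omega
  obtain ⟨b, hb⟩ := Th_exists F l mu c heps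
  refine ⟨b, hb, ?_⟩
  intro J hJ
  obtain ⟨ka, G, hG, hGl⟩ := hd
  obtain ⟨ka', e, he, hel⟩ := hb
  obtain ⟨j1, hj1⟩ := J_exists F l l2 l1 (by rw [hl, add_comm])
  -- the two copies in the triple tensor product
  let H1 : Mor (F.B ka) ((F.T mu l1).tensor (F.B l2)) := (e0.left (F.B l2)).comp G
  let H2 : Mor (F.B ka') ((F.T mu l1).tensor (F.B l2)) :=
    ((Mor.assoc (F.B mu) (F.B l1) (F.B l2)).comp (Mor.right (F.B mu) j1)).comp e
  have hH1 : H1.map (F.hw ka) = ((c, F.hw l1), F.hw l2) := by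
    change (e0.left (F.B l2)).map (G.map (F.hw ka)) = _
    rw [hG]
    change (e0.map d, F.hw l2) = _
    rw [h2]
    rfl
  have hH2 : H2.map (F.hw ka') = ((c, F.hw l1), F.hw l2) := by
    change (Mor.assoc (F.B mu) (F.B l1) (F.B l2)).map ((Mor.right (F.B mu) j1).map
      (e.map (F.hw ka'))) = _
    rw [he]
    change (Mor.assoc (F.B mu) (F.B l1) (F.B l2)).map (c, j1.map (F.hw l)) = _
    rw [hj1]
    rfl
  have hka : ka = ka' := by
    apply dom_inj (C := C)
    rw [← wt_hw_eq F ka, ← wt_hw_eq F ka', ← H1.map_wt, ← H2.map_wt, hH1, hH2]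
  subst hka
  have h3 := mor_ext F ka H1 H2 (by rw [hH1, hH2]) (F.low ka)
  have h4 : H1.map (F.low ka) = ((F.low mu, F.xi l1 b0), F.xi l2 y) := by
    change (e0.left (F.B l2)).map (G.map (F.low ka)) = _
    rw [hGl]
    change (e0.map (F.low nu), F.xi l2 y) = _
    rw [h1]
    rfl
  have h5 : H2.map (F.low ka) = ((F.low mu, (j1.map (F.xi l b)).1), (j1.map (F.xi l b)).2) := by
    change (Mor.assoc (F.B mu) (F.B l1) (F.B l2)).map ((Mor.right (F.B mu) j1).map
      (e.map (F.low ka))) = _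
    rw [hel]
    rfl
  rw [h4, h5] at h3
  have h6 : j1.map (F.xi l b) = (F.xi l1 b0, F.xi l2 y) := by
    have h7 := Prod.mk.inj h3
    have h8 := Prod.mk.inj h7.1
    exact Prod.ext h8.2.symm h7.2.symm
  -- the conjugate of j1 is J
  have h7 : (F.conj j1).map (F.hw l) = (F.hw l2, F.hw l1) := by
    have h8 := Th_hw F l2 l1
    obtain ⟨ka2, g2, hg2, hg2l⟩ := h8
    have hka2 : ka2 = l := by
      apply dom_inj (C := C)
      rw [← wt_hw_eq F ka2, ← wt_hw_eq F l, ← g2.map_wt, ← j1.map_wt, hg2, hj1]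
    subst hka2
    have h9 := mor_ext F ka2 g2 j1 (by rw [hg2, hj1]) (F.low ka2)
    change F.X l1 l2 (j1.map (F.low ka2)) = _
    rw [← h9, hg2l]
    change (F.xi l2 (F.xi l2 (F.hw l2)), F.xi l1 (F.xi l1 (F.hw l1))) = _
    rw [F.xi_xi, F.xi_xi]
  have h8 := mor_ext F l J (F.conj j1) (by rw [hJ, h7]) b
  rw [h8]
  change F.X l1 l2 (j1.map (F.xi l b)) = _
  rw [h6]
  change (F.xi l2 (F.xi l2 y), F.xi l1 (F.xi l1 b0)) = _
  rw [F.xi_xi, F.xi_xi]

/-- stability in `lam` -/
theorem Th_stable {lam mu : C.I → ℕ} {c : (F.B mu).B} {b : (F.B lam).B} (h : F.Th lam mu c b)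
    (l nu : C.I → ℕ) (hl : l = lam + nu) :
    ∃ b1, F.Th l mu c b1 ∧ ∀ J : Mor (F.B l) (F.T nu lam), J.map (F.hw l) = (F.hw nu, F.hw lam) →
      J.map b1 = (F.hw nu, b) := by
  obtain ⟨ka, g, hg, hgl⟩ := h
  exact Th_comp F hl g hgl hg (Th_hw F nu ka)

theorem tensor_down (X : Crystal C) (lam' : C.I → ℕ) (i : C.I) (h0 : lam' i = 0) (k : ℕ)
    (a : X.B) : (X.tensor (F.B lam')).down i k (a, F.hw lam') = (X.down i k a, F.hw lam') := by
  induction k generalizing a with
  | zero => rfl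
  | succ k ih =>
    have h1 : (X.tensor (F.B lam')).f i (a, F.hw lam') =
        (X.f i a).map (fun x => (x, F.hw lam')) := by
      change (if (F.B lam').phi i (F.hw lam') ≤ X.eps i a then _ else _) = _
      rw [if_pos (by rw [phi_hw, h0]; exact Nat.zero_le _)]
    cases h : X.f i a with
    | none =>
      rw [h] at h1
      rw [(X.tensor (F.B lam')).down_none i (k + 1) _ h1, X.down_none i (k + 1) a h]
    | some a' =>
      rw [h] at h1
      rw [(X.tensor (F.B lam')).down_some i k _ _ h1, X.down_some i k a a' h, ih]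

/-- stripping the `i`-string -/
theorem Th_string {mu : C.I → ℕ} (c : (F.B mu).B) (i : C.I) (n : ℕ) (l lam' : C.I → ℕ)
    (hl : l = lam' + Pi.single i n) (h0 : lam' i = 0) (hn : (F.B mu).eps i c ≤ n)
    (h : ∀ j, (F.B mu).eps j ((F.B mu).emax i c) ≤ lam' j) :
    ∃ b b0, F.Th l mu c b ∧ F.Th lam' mu ((F.B mu).emax i c) b0 ∧
      ∀ J : Mor (F.B l) (F.T (Pi.single i n) lam'),
        J.map (F.hw l) = (F.hw (Pi.single i n), F.hw lam') →
        J.map b = ((F.B (Pi.single i n)).down i ((F.B mu).eps i c) (F.hw (Pi.single i n)), b0) := by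
  obtain ⟨b0, hb0⟩ := Th_exists F lam' mu _ h
  obtain ⟨nu, e0, he0, he0l⟩ := id hb0
  set m := (F.B mu).eps i c with hm
  set c0 := (F.B mu).emax i c with hc0
  -- phi_i of the highest weight element of the component
  have hphi : m ≤ (F.B mu).phi i c0 := by
    have h1 := (F.B mu).wt_emax i c
    have h2 := congrFun h1 i
    rw [Pi.add_apply, Pi.smul_apply, smul_eq_mul, Cartan.al, C.diag] at h2
    have h3 := (F.B mu).phi_eps i c
    have h4 := (F.B mu).phi_eps i c0
    rw [hc0, (F.B mu).eps_emax, h2] at h4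
    rw [← hc0] at h4
    omega
  have hphinu : m ≤ (F.B nu).phi i (F.hw nu) := by
    have h1 := e0.phi_map i (F.hw nu)
    rw [he0] at h1
    have h2 : (F.B mu).phi i c0 + ((F.B lam').phi i (F.hw lam') - (F.B mu).eps i c0) =
      (F.B nu).phi i (F.hw nu) := h1
    omega
  have hd : e0.map ((F.B nu).down i m (F.hw nu)) = (c, F.hw lam') := by
    rw [← e0.down_map, he0]
    have h1 := tensor_down F (F.B mu) lam' i h0 m c0
    rw [hc0, hm, (F.B mu).down_emax] at h1
    rw [hc0, hm]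
    exact h1
  have heps : ∀ j, (F.B nu).eps j ((F.B nu).down i m (F.hw nu)) ≤ (Pi.single i n : C.I → ℕ) j := by
    intro j
    by_cases hj : j = i
    · subst hj
      rw [(F.B nu).eps_down _ m _ hphinu, eps_hw, Pi.single_eq_same]
      omega
    · rw [eps_down_ne F nu i j hj m (by rw [phi_hw] at hphinu; exact hphinu)]
      exact Nat.zero_le _
  obtain ⟨y, hy⟩ := Th_exists F (Pi.single i n) nu _ heps
  obtain ⟨b, hb, hJ⟩ := Th_comp F hl e0 he0l hd hy
  refine ⟨b, b0, hb, hb0, ?_⟩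
  intro J hJ'
  rw [hJ J hJ']
  have hwt := Th_wt F hy
  rw [(F.B nu).wt_down i m _ hphinu, wt_hw_eq] at hwt
  have hy2 := (eq_down_of_wt F (Pi.single i n) i m y ?_).2
  · rw [hy2]
  · have : (F.B (Pi.single i n)).wt y = C.dom nu - (m : ℤ) • C.al i + C.dom (Pi.single i n) - C.dom nu := by
      rw [← hwt]; abel
    rw [this]; abel

end Pool.Agent.H59.KY
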