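import Mathlib

/-!
Crystals of a complex semisimple Lie algebra, tensor products, the Henriques-Kamnitzer commutor,
Demazure crystals and keys: definitions.
-/

set_option autoImplicit false

open scoped Classical

namespace Pool.Agent.H59.KY

/-- A Cartan matrix of finite type; `A i j` is the value of the simple coroot `α_i^∨` on the simple
root `α_j`. Complex semisimple Lie algebras correspond to these matrices. -/
structure Cartan where
  I : Type
  fin : Fintype I
  A : I → I → ℤ
  diag : ∀ i, A i i = 2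
  off : ∀ i j, i ≠ j → A i j ≤ 0
  zero : ∀ i j, A i j = 0 → A j i = 0
  pos : ∃ d : I → ℚ, (∀ i, 0 < d i) ∧ (∀ i j, d i * A i j = d j * A j i) ∧
    ∀ x : I → ℚ, x ≠ 0 → 0 < ∑ i, ∑ j, d i * A i j * x i * x j

attribute [instance] Cartan.fin

/-- The weight lattice: a weight is given by its values on the simple coroots. -/
abbrev Cartan.Wt (C : Cartan) : Type := C.I → ℤ

/-- simple root -/
def Cartan.al (C : Cartan) (j : C.I) : C.Wt := fun i => C.A i j

/-- automorphisms of the weight lattice -/
abbrev Cartan.Aut (C : Cartan) : Type := C.Wt ≃ₗ[ℤ] C.Wt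

/-- simple reflection -/
def Cartan.s (C : Cartan) (i : C.I) : C.Aut where
  toFun := fun lam => lam - lam i • C.al i
  invFun := fun lam => lam - lam i • C.al i
  left_inv := by
    intro lam
    funext j
    simp only [Pi.sub_apply, Pi.smul_apply, Cartan.al, smul_eq_mul, C.diag]
    ring
  right_inv := by
    intro lam
    funext j
    simp only [Pi.sub_apply, Pi.smul_apply, Cartan.al, smul_eq_mul, C.diag]
    ring
  map_add' := by
    intro lam mu
    funext j
    simp only [Pi.sub_apply, Pi.smul_apply, Pi.add_apply, smul_eq_mul]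
    ring
  map_smul' := by
    intro r mu
    funext j
    simp only [Pi.sub_apply, Pi.smul_apply, smul_eq_mul, RingHom.id_apply]
    ring

/-- product of simple reflections along a word -/
def Cartan.wprod (C : Cartan) (l : List C.I) : C.Aut := (l.map C.s).prod

/-- the Weyl group -/
def Cartan.W (C : Cartan) : Subgroup (C.Aut) := Subgroup.closure (Set.range C.s)

/-- length of an element of the Weyl group -/
noncomputable def Cartan.len (C : Cartan) (w : C.Aut) : ℕ :=
  sInf {n | ∃ l : List C.I, C.wprod l = w ∧ l.length = n}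

/-- `l` is a reduced word of `w` -/
def Cartan.Reduced (C : Cartan) (l : List C.I) (w : C.Aut) : Prop :=
  C.wprod l = w ∧ l.length = C.len w

/-- A (normal) crystal: `e`, `f` are the crystal operators (`none` is zero), `eps i b` and `phi i b`
are the largest `n` with `e_i^n b`, `f_i^n b` nonzero. -/
structure Crystal (C : Cartan) where
  B : Type
  wt : B → C.Wt
  e : C.I → B → Option B
  f : C.I → B → Option B
  eps : C.I → B → ℕ
  phi : C.I → B → ℕ
  f_iff : ∀ i b b', f i b = some b' ↔ e i b' = some b
  wt_e : ∀ i b b', e i b = some b' → wt b' = wt b + C.al i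
  eps_none : ∀ i b, e i b = none → eps i b = 0
  eps_some : ∀ i b b', e i b = some b' → eps i b = eps i b' + 1
  phi_none : ∀ i b, f i b = none → phi i b = 0
  phi_some : ∀ i b b', f i b = some b' → phi i b = phi i b' + 1
  phi_eps : ∀ i b, (phi i b : ℤ) = eps i b + wt b i

/-- Tensor product; the convention is the one in which the highest weight elements of
`B_λ ⊗ B_μ` have the form `b ⊗ b_μ`. -/
def Crystal.tensor {C : Cartan} (X Y : Crystal C) : Crystal C where
  B := X.B × Y.B
  wt := fun z => X.wt z.1 + Y.wt z.2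
  e := fun i z => if Y.phi i z.2 < X.eps i z.1 then (X.e i z.1).map (fun a => (a, z.2))
    else (Y.e i z.2).map (fun b => (z.1, b))
  f := fun i z => if Y.phi i z.2 ≤ X.eps i z.1 then (X.f i z.1).map (fun a => (a, z.2))
    else (Y.f i z.2).map (fun b => (z.1, b))
  eps := fun i z => Y.eps i z.2 + (X.eps i z.1 - Y.phi i z.2)
  phi := fun i z => X.phi i z.1 + (Y.phi i z.2 - X.eps i z.1)
  f_iff := by
    rintro i ⟨a, b⟩ ⟨a', b'⟩
    dsimp only
    constructor
    · intro h
      split_ifs at h with h1
      · rw [Option.map_eq_some_iff] at h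
        obtain ⟨a1, h2, h3⟩ := h
        obtain ⟨rfl, rfl⟩ := Prod.mk.inj h3
        have h4 := (X.f_iff i a a1).mp h2
        have h5 := X.eps_some i _ _ h4
        rw [if_pos (by omega), h4]
        rfl
      · rw [Option.map_eq_some_iff] at h
        obtain ⟨b1, h2, h3⟩ := h
        obtain ⟨rfl, rfl⟩ := Prod.mk.inj h3
        have h4 := (Y.f_iff i b b1).mp h2
        have h5 := Y.phi_some i _ _ h2
        rw [if_neg (by omega), h4]
        rfl
    · intro h
      split_ifs at h with h1
      · rw [Option.map_eq_some_iff] at h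
        obtain ⟨a1, h2, h3⟩ := h
        obtain ⟨rfl, rfl⟩ := Prod.mk.inj h3
        have h4 := (X.f_iff i a1 a').mpr h2
        have h5 := X.eps_some i _ _ h2
        rw [if_pos (by omega), h4]
        rfl
      · rw [Option.map_eq_some_iff] at h
        obtain ⟨b1, h2, h3⟩ := h
        obtain ⟨rfl, rfl⟩ := Prod.mk.inj h3
        have h4 := (Y.f_iff i b1 b').mpr h2
        have h5 := Y.phi_some i _ _ h4
        rw [if_neg (by omega), h4]
        rfl
  wt_e := by
    rintro i ⟨a, b⟩ ⟨a', b'⟩ h
    dsimp only at h ⊢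
    split_ifs at h with h1
    · rw [Option.map_eq_some_iff] at h
      obtain ⟨a1, h2, h3⟩ := h
      obtain ⟨rfl, rfl⟩ := Prod.mk.inj h3
      rw [X.wt_e i _ _ h2]
      abel
    · rw [Option.map_eq_some_iff] at h
      obtain ⟨b1, h2, h3⟩ := h
      obtain ⟨rfl, rfl⟩ := Prod.mk.inj h3
      rw [Y.wt_e i _ _ h2]
      abel
  eps_none := by
    rintro i ⟨a, b⟩ h
    dsimp only at h ⊢
    split_ifs at h with h1
    · rw [Option.map_eq_none_iff] at h
      have := X.eps_none i _ h
      omega
    · rw [Option.map_eq_none_iff] at h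
      have := Y.eps_none i _ h
      omega
  eps_some := by
    rintro i ⟨a, b⟩ ⟨a', b'⟩ h
    dsimp only at h ⊢
    split_ifs at h with h1
    · rw [Option.map_eq_some_iff] at h
      obtain ⟨a1, h2, h3⟩ := h
      obtain ⟨rfl, rfl⟩ := Prod.mk.inj h3
      have := X.eps_some i _ _ h2
      omega
    · rw [Option.map_eq_some_iff] at h
      obtain ⟨b1, h2, h3⟩ := h
      obtain ⟨rfl, rfl⟩ := Prod.mk.inj h3
      have h4 := Y.eps_some i _ _ h2
      have h5 := Y.phi_some i _ _ ((Y.f_iff i _ _).mpr h2)
      omega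
  phi_none := by
    rintro i ⟨a, b⟩ h
    dsimp only at h ⊢
    split_ifs at h with h1
    · rw [Option.map_eq_none_iff] at h
      have := X.phi_none i _ h
      omega
    · rw [Option.map_eq_none_iff] at h
      have := Y.phi_none i _ h
      omega
  phi_some := by
    rintro i ⟨a, b⟩ ⟨a', b'⟩ h
    dsimp only at h ⊢
    split_ifs at h with h1
    · rw [Option.map_eq_some_iff] at h
      obtain ⟨a1, h2, h3⟩ := h
      obtain ⟨rfl, rfl⟩ := Prod.mk.inj h3
      have h4 := X.phi_some i _ _ h2
      have h5 := X.eps_some i _ _ ((X.f_iff i _ _).mp h2)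
      omega
    · rw [Option.map_eq_some_iff] at h
      obtain ⟨b1, h2, h3⟩ := h
      obtain ⟨rfl, rfl⟩ := Prod.mk.inj h3
      have h4 := Y.phi_some i _ _ h2
      omega
  phi_eps := by
    rintro i ⟨a, b⟩
    dsimp only
    have h1 := X.phi_eps i a
    have h2 := Y.phi_eps i b
    rw [Pi.add_apply]
    omega

/-- morphisms of crystals commuting with all the crystal operators -/
structure Mor {C : Cartan} (X Y : Crystal C) where
  map : X.B → Y.B
  map_e : ∀ i b, Y.e i (map b) = (X.e i b).map map
  map_f : ∀ i b, Y.f i (map b) = (X.f i b).map map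
  map_wt : ∀ b, Y.wt (map b) = X.wt b

/-- apply `f_i` along a word (the head of the word is applied last) -/
def Crystal.fword {C : Cartan} (X : Crystal C) : List C.I → X.B → Option X.B
  | [], b => some b
  | i :: l, b => (X.fword l b).bind (X.f i)

/-- The crystals `B_λ`, `λ` dominant, of the irreducible modules of the semisimple Lie algebra with
Cartan matrix `A`: `B_λ` is generated by its highest weight element, a highest weight element of
`B_λ ⊗ B_μ` generates a copy of some `B_ν`, and `xi` is the Schützenberger (Lusztig) involution. -/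
structure Family (C : Cartan) where
  B : (C.I → ℕ) → Crystal C
  hw : ∀ lam, (B lam).B
  wt_hw : ∀ lam i, (B lam).wt (hw lam) i = lam i
  e_hw : ∀ lam i, (B lam).e i (hw lam) = none
  gen : ∀ lam b, ∃ l : List C.I, (B lam).fword l (hw lam) = some b
  tens : ∀ lam mu (z : ((B lam).tensor (B mu)).B), (∀ i, ((B lam).tensor (B mu)).e i z = none) →
    ∃ nu, ∃ g : Mor (B nu) ((B lam).tensor (B mu)), g.map (hw nu) = z
  star : C.I → C.I
  star_star : ∀ i, star (star i) = i
  w0 : C.Aut
  w0_mem : w0 ∈ C.W
  w0_al : ∀ i, w0 (C.al i) = - C.al (star i)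
  xi : ∀ lam, (B lam).B → (B lam).B
  xi_xi : ∀ lam b, xi lam (xi lam b) = b
  e_xi : ∀ lam i b, (B lam).e i (xi lam b) = ((B lam).f (star i) b).map (xi lam)
  f_xi : ∀ lam i b, (B lam).f i (xi lam b) = ((B lam).e (star i) b).map (xi lam)
  wt_xi : ∀ lam b, (B lam).wt (xi lam b) = w0 ((B lam).wt b)

variable {C : Cartan} (F : Family C)

/-- `B_λ ⊗ B_μ` -/
abbrev Family.T (lam mu : C.I → ℕ) : Crystal C := (F.B lam).tensor (F.B mu)

/-- Schützenberger involution on `B_λ ⊗ B_μ`, applied on each connected component: `y` is the image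
of `x` -/
def Family.XiT (lam mu : C.I → ℕ) (x y : (F.T lam mu).B) : Prop :=
  ∃ nu, ∃ g : Mor (F.B nu) (F.T lam mu), ∃ t, g.map t = x ∧ g.map (F.xi nu t) = y

/-- the Henriques-Kamnitzer commutor `B_λ ⊗ B_μ → B_μ ⊗ B_λ` sends `z` to `z'` -/
def Family.Commutor (lam mu : C.I → ℕ) (z : (F.T lam mu).B) (z' : (F.T mu lam).B) : Prop :=
  F.XiT mu lam (F.xi mu z.2, F.xi lam z.1) z'

/-- `{f_{i_1}^{a_1} ⋯ f_{i_k}^{a_k} b_λ}` for the word `i_1 ⋯ i_k` -/
def Family.Dem (lam : C.I → ℕ) : List C.I → Set (F.B lam).B
  | [] => {F.hw lam}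
  | i :: l => {c | ∃ x ∈ Family.Dem lam l, ∃ a : ℕ, (F.B lam).fword (List.replicate a i) x = some c}

/-- The Demazure crystal `B_w(λ)` (defined by means of reduced words of `w`). -/
def Family.DemW (lam : C.I → ℕ) (w : C.Aut) : Set (F.B lam).B :=
  {c | ∃ l, C.Reduced l w ∧ c ∈ F.Dem lam l}

/-- `w` is the key of `b`: `B_w(λ)` is the smallest Demazure crystal containing `b`, and `w` is the
element of minimal length of the coset `w W_λ`. -/
def Family.IsKey (lam : C.I → ℕ) (b : (F.B lam).B) (w : C.Aut) : Prop :=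
  b ∈ F.DemW lam w ∧ (∀ v, b ∈ F.DemW lam v → F.DemW lam w ⊆ F.DemW lam v) ∧
    ∀ x ∈ C.W, x (fun i => (lam i : ℤ)) = (fun i => (lam i : ℤ)) → x ≠ 1 → C.len w < C.len (w * x)

end Pool.Agent.H59.KY
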