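import Pool.Agent.H59.KY.Key

/-!
The commutor is a well defined map, and it sends highest weight elements to highest weight elements.
-/

set_option autoImplicit false

open scoped Classical

namespace Pool.Agent.H59.KY

variable {C : Cartan} (F : Family C)

/-- every element of `B_λ ⊗ B_μ` lies in a copy of some `B_ν` -/
theorem exists_component (lam mu : C.I → ℕ) (N : ℕ) : ∀ (x : (F.T lam mu).B) (n : C.I → ℕ),
    (F.T lam mu).wt x = C.dom lam + C.dom mu - C.root (fun j => (n j : ℤ)) → ∑ j, n j = N →
    ∃ nu, ∃ g : Mor (F.B nu) (F.T lam mu), ∃ t, g.map t = x := by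
  induction N with
  | zero =>
    intro x n hx hn
    obtain ⟨nu, g, hg⟩ := F.tens lam mu x (by
      intro i
      cases h : (F.T lam mu).e i x with
      | none => rfl
      | some x' =>
        exfalso
        have h1 := (F.T lam mu).wt_e i _ _ h
        obtain ⟨n1, hn1⟩ := wt_le F lam x'.1
        obtain ⟨n2, hn2⟩ := wt_le F mu x'.2
        have h2 : (F.T lam mu).wt x' = (F.B lam).wt x'.1 + (F.B mu).wt x'.2 := rfl
        rw [hn1, hn2] at h2
        have h3 : ∀ j, n j = 0 := by
          intro j
          exact (Finset.sum_eq_zero_iff.mp hn) j (Finset.mem_univ j)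
        have h4 : C.root (fun j => (n1 j : ℤ)) + C.root (fun j => (n2 j : ℤ)) + C.al i =
            C.root (fun j => (n j : ℤ)) := by
          rw [h1, hx] at h2
          linear_combination h2
        have h5 : C.root ((fun j => (n1 j : ℤ)) + (fun j => (n2 j : ℤ)) + Pi.single i 1
            + -(fun j => (n j : ℤ))) = 0 := by
          rw [root_add, root_add, root_add, root_neg, root_single, one_smul, h4]
          exact add_neg_cancel _
        have h6 := congrFun (root_indep _ h5) i
        simp only [Pi.add_apply, Pi.single_eq_same, Pi.neg_apply, Pi.zero_apply, h3] at h6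
        push_cast at h6
        omega)
    exact ⟨nu, g, F.hw nu, hg⟩
  | succ N ih =>
    intro x n hx hn
    by_cases hall : ∀ i, (F.T lam mu).e i x = none
    · obtain ⟨nu, g, hg⟩ := F.tens lam mu x hall
      exact ⟨nu, g, F.hw nu, hg⟩
    · push Not at hall
      obtain ⟨i, hi⟩ := hall
      obtain ⟨x', h⟩ := Option.ne_none_iff_exists'.mp hi
      have h1 := (F.T lam mu).wt_e i _ _ h
      obtain ⟨n1, hn1⟩ := wt_le F lam x'.1
      obtain ⟨n2, hn2⟩ := wt_le F mu x'.2
      have h2 : (F.T lam mu).wt x' = (F.B lam).wt x'.1 + (F.B mu).wt x'.2 := rfl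
      rw [hn1, hn2] at h2
      have h4 : C.root (fun j => (n1 j : ℤ)) + C.root (fun j => (n2 j : ℤ)) + C.al i =
          C.root (fun j => (n j : ℤ)) := by
        have h3 := h2
        rw [h1, hx] at h3
        linear_combination h3
      have h5 : C.root ((fun j => (n1 j : ℤ)) + (fun j => (n2 j : ℤ)) + Pi.single i 1
          + -(fun j => (n j : ℤ))) = 0 := by
        rw [root_add, root_add, root_add, root_neg, root_single, one_smul, h4]
        exact add_neg_cancel _
      have h6 := root_indep _ h5
      have h7 : ∀ j, (n1 j : ℤ) + n2 j + (Pi.single i 1 : C.I → ℤ) j = n j := by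
        intro j
        have := congrFun h6 j
        simp only [Pi.add_apply, Pi.neg_apply, Pi.zero_apply] at this
        linear_combination this
      have h8 : ∑ j, (n1 j + n2 j) = N := by
        have h9 : (∑ j, ((n1 j : ℤ) + n2 j + (Pi.single i 1 : C.I → ℤ) j)) = ∑ j, (n j : ℤ) :=
          Finset.sum_congr rfl (fun j _ => h7 j)
        rw [Finset.sum_add_distrib, Finset.sum_pi_single'] at h9
        rw [if_pos (Finset.mem_univ i)] at h9
        have h10 : (∑ j, (n j : ℤ)) = N + 1 := by exact_mod_cast hn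
        rw [h10] at h9
        have h11 : (∑ j, ((n1 j : ℤ) + n2 j)) = N := by linarith
        exact_mod_cast h11
      obtain ⟨nu, g, t, hg⟩ := ih x' (fun j => n1 j + n2 j) (by
        rw [h2]
        have h12 : (fun j => ((n1 j + n2 j : ℕ) : ℤ)) =
            (fun j => (n1 j : ℤ)) + (fun j => (n2 j : ℤ)) := by
          funext j
          push_cast
          rfl
        rw [h12, root_add]
        abel) h8
      have h13 := ((F.T lam mu).f_iff i x' x).mpr h
      rw [← hg, g.map_f, Option.map_eq_some_iff] at h13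
      obtain ⟨t', -, ht'⟩ := h13
      exact ⟨nu, g, t', ht'⟩

theorem component (lam mu : C.I → ℕ) (x : (F.T lam mu).B) :
    ∃ nu, ∃ g : Mor (F.B nu) (F.T lam mu), ∃ t, g.map t = x := by
  obtain ⟨n1, hn1⟩ := wt_le F lam x.1
  obtain ⟨n2, hn2⟩ := wt_le F mu x.2
  refine exists_component F lam mu (∑ j, (n1 j + n2 j)) x (fun j => n1 j + n2 j) ?_ rfl
  change (F.B lam).wt x.1 + (F.B mu).wt x.2 = _
  rw [hn1, hn2]
  have h12 : (fun j => ((n1 j + n2 j : ℕ) : ℤ)) =
      (fun j => (n1 j : ℤ)) + (fun j => (n2 j : ℤ)) := by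
    funext j
    push_cast
    rfl
  rw [h12, root_add]
  abel

/-- morphisms from `B_ν` are injective -/
theorem mor_inj (nu : C.I → ℕ) {Y : Crystal C} (g : Mor (F.B nu) Y) (l : List C.I) :
    ∀ t t' : (F.B nu).B, (F.B nu).fword l (F.hw nu) = some t → g.map t = g.map t' → t = t' := by
  induction l with
  | nil =>
    intro t t' ht h
    have h0 : F.hw nu = t := Option.some.inj ht
    subst h0
    symm
    apply hw_unique
    intro i
    have h1 := g.map_e i t'
    rw [← h, g.map_e, F.e_hw] at h1
    exact Option.map_eq_none_iff.mp h1.symm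
  | cons i l ih =>
    intro t t' ht h
    have h0 : ((F.B nu).fword l (F.hw nu)).bind ((F.B nu).f i) = some t := ht
    rw [Option.bind_eq_some_iff] at h0
    obtain ⟨t1, h1, h2⟩ := h0
    have h3 := ((F.B nu).f_iff i t1 t).mp h2
    have h4 := g.map_e i t
    rw [h3, h, g.map_e] at h4
    change ((F.B nu).e i t').map g.map = some (g.map t1) at h4
    rw [Option.map_eq_some_iff] at h4
    obtain ⟨t1', h5, h6⟩ := h4
    have h7 := ih t1 t1' h1 h6.symm
    subst h7
    have h8 := ((F.B nu).f_iff i t1 t').mpr h5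
    rw [h2] at h8
    exact Option.some.inj h8

/-- components are determined by their elements -/
theorem comp_hw {Y : Crystal C} (nu nu' : C.I → ℕ) (g : Mor (F.B nu) Y) (g' : Mor (F.B nu') Y)
    (l : List C.I) : ∀ (t : (F.B nu).B) (t' : (F.B nu').B),
    (F.B nu).fword l (F.hw nu) = some t → g.map t = g'.map t' →
    g.map (F.hw nu) = g'.map (F.hw nu') := by
  induction l with
  | nil =>
    intro t t' ht h
    have h0 : F.hw nu = t := Option.some.inj ht
    subst h0
    have h2 : t' = F.hw nu' := by
      apply hw_unique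
      intro i
      have h1 := g'.map_e i t'
      rw [← h, g.map_e, F.e_hw] at h1
      exact Option.map_eq_none_iff.mp h1.symm
    rw [h, h2]
  | cons i l ih =>
    intro t t' ht h
    have h0 : ((F.B nu).fword l (F.hw nu)).bind ((F.B nu).f i) = some t := ht
    rw [Option.bind_eq_some_iff] at h0
    obtain ⟨t1, h1, h2⟩ := h0
    have h3 := ((F.B nu).f_iff i t1 t).mp h2
    have h4 := g.map_e i t
    rw [h3, h, g'.map_e] at h4
    change ((F.B nu').e i t').map g'.map = some (g.map t1) at h4
    rw [Option.map_eq_some_iff] at h4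
    obtain ⟨t1', h5, h6⟩ := h4
    exact ih t1 t1' h1 h6.symm

theorem XiT_unique (lam mu : C.I → ℕ) (x y y' : (F.T lam mu).B) (h : F.XiT lam mu x y)
    (h' : F.XiT lam mu x y') : y = y' := by
  obtain ⟨nu, g, t, hx, hy⟩ := h
  obtain ⟨nu', g', t', hx', hy'⟩ := h'
  obtain ⟨l, hl⟩ := F.gen nu t
  have h1 := comp_hw F nu nu' g g' l t t' hl (by rw [hx, hx'])
  have hnu : nu = nu' := by
    apply dom_inj (C := C)
    rw [← wt_hw_eq F nu, ← wt_hw_eq F nu', ← g.map_wt, ← g'.map_wt, h1]
  subst hnu
  have h2 := mor_ext F nu g g' h1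
  have h3 : t = t' := mor_inj F nu g l t t' hl (by rw [hx, h2 t', hx'])
  subst h3
  rw [← hy, ← hy', h2]

theorem Commutor_exists (lam mu : C.I → ℕ) (z : (F.T lam mu).B) :
    ∃! z' : (F.T mu lam).B, F.Commutor lam mu z z' := by
  obtain ⟨nu, g, t, hg⟩ := component F mu lam (F.xi mu z.2, F.xi lam z.1)
  refine ⟨g.map (F.xi nu t), ⟨nu, g, t, hg, rfl⟩, ?_⟩
  intro y hy
  exact XiT_unique F mu lam _ _ _ hy ⟨nu, g, t, hg, rfl⟩

/-- the commutor on highest weight elements -/
theorem Commutor_hw (lam mu : C.I → ℕ) (b : (F.B lam).B)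
    (hb : ∀ i, (F.T lam mu).e i (b, F.hw mu) = none) (z' : (F.T mu lam).B)
    (h : F.Commutor lam mu (b, F.hw mu) z') :
    ∃ c, z' = (c, F.hw lam) ∧ F.Th lam mu c b := by
  obtain ⟨nu, g, t, hg, hz⟩ := h
  have h1 : ∀ i, (F.B nu).f i t = none := by
    intro i
    have h2 := g.map_f i t
    have h3 : (F.T mu lam).f i (g.map t) = none := by
      rw [hg]
      refine (X_f F lam mu i (b, F.hw mu)).trans ?_
      have h4 := hb (F.star i)
      exact (congrArg (Option.map (F.X lam mu)) h4).trans rfl
    rw [h3] at h2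
    exact Option.map_eq_none_iff.mp h2.symm
  have h4 := low_unique F nu t h1
  subst h4
  have h5 : F.xi nu (F.low nu) = F.hw nu := F.xi_xi nu _
  rw [h5] at hz
  have h6 : ∀ i, (F.T mu lam).e i z' = none := by
    intro i
    rw [← hz, g.map_e, F.e_hw]
    rfl
  obtain ⟨c, d⟩ := z'
  have h7 := (tensor_hw F mu lam c d).mp h6
  obtain ⟨h8, -⟩ := h7
  subst h8
  exact ⟨c, rfl, nu, g, hz, hg⟩

end Pool.Agent.H59.KY
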