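import Pool.Agent.H59.KY.Uniq

/-!
The family `B_λ` is unique up to isomorphism (theorem of Joseph), second part.
-/

set_option autoImplicit false

open scoped Classical

namespace Pool.Agent.H59.KY

variable {C : Cartan}

section
variable (F : Family C)

theorem root_star (n : C.I → ℤ) : F.w0 (C.root n) = - C.root (fun j => n (F.star j)) := by
  unfold Cartan.root
  rw [map_sum, ← Finset.sum_neg_distrib]
  have h1 : ∑ j, F.w0 (n j • C.al j) = ∑ j, - (n j • C.al (F.star j)) := by
    refine Finset.sum_congr rfl (fun j _ => ?_)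
    rw [map_smul, F.w0_al, smul_neg]
  rw [h1]
  have h2 : Function.Involutive F.star := F.star_star
  rw [← Equiv.sum_comp h2.toPerm]
  refine Finset.sum_congr rfl (fun j _ => ?_)
  change - (n (F.star j) • C.al (F.star (F.star j))) = _
  rw [F.star_star]

/-- the depth of `B_λ` is bounded -/
theorem depth_bound (l : C.I → ℕ) : ∃ H : ℕ, ∀ (v : List C.I) (b : (F.B l).B),
    (F.B l).fword v (F.hw l) = some b → v.length ≤ H := by
  obtain ⟨p, hp⟩ := wt_le F l (F.xi l (F.hw l))
  refine ⟨∑ j, p j, ?_⟩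
  intro v b hb
  obtain ⟨n', hn'⟩ := wt_le F l (F.xi l b)
  have h1 := wt_fword _ v _ _ hb
  rw [wt_hw_eq] at h1
  rw [F.wt_xi, wt_hw_eq] at hp
  rw [F.wt_xi, h1, map_sub, root_star, hp] at hn'
  have h2 : C.root ((fun j => (n' j : ℤ)) + (fun j => (v.count (F.star j) : ℤ)) +
      -(fun j => (p j : ℤ))) = 0 := by
    rw [root_add, root_add, root_neg]
    linear_combination hn'
  have h3 := root_indep _ h2
  have h4 : ∀ j, v.count (F.star j) ≤ p j := by
    intro j
    have := congrFun h3 j
    simp only [Pi.add_apply, Pi.neg_apply, Pi.zero_apply] at this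
    omega
  have h5 : ∑ j, v.count j = v.length := by
    have := Multiset.sum_count_eq_card (s := (Finset.univ : Finset C.I)) (m := (v : Multiset C.I))
      (fun a _ => Finset.mem_univ a)
    simpa using this
  rw [← h5]
  have h6 : Function.Involutive F.star := F.star_star
  rw [← Equiv.sum_comp h6.toPerm]
  exact Finset.sum_le_sum (fun j _ => h4 j)

/-- longer words give larger Demazure crystals -/
theorem Dem_sublist (l : C.I → ℕ) {v w : List C.I} (h : v.Sublist w) : F.Dem l v ⊆ F.Dem l w := by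
  induction h with
  | slnil => exact fun x hx => hx
  | cons i _ ih =>
    intro x hx
    exact ⟨x, ih hx, 0, rfl⟩
  | cons_cons i _ ih =>
    rintro x ⟨y, hy, a, ha⟩
    exact ⟨y, ih hy, a, ha⟩

theorem mem_Dem_fword (l : C.I → ℕ) (v : List C.I) : ∀ b : (F.B l).B,
    (F.B l).fword v (F.hw l) = some b → b ∈ F.Dem l v := by
  induction v with
  | nil =>
    intro b hb
    exact (Option.some.inj hb).symm
  | cons i v ih =>
    intro b hb
    have h1 : ((F.B l).fword v (F.hw l)).bind ((F.B l).f i) = some b := hb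
    rw [Option.bind_eq_some_iff] at h1
    obtain ⟨y, hy, hy'⟩ := h1
    exact ⟨y, ih y hy, 1, hy'⟩

end

/-- all letters, `H` times -/
noncomputable def full (C : Cartan) : ℕ → List C.I
  | 0 => []
  | H + 1 => (Finset.univ : Finset C.I).toList ++ full C H

theorem sublist_full (H : ℕ) : ∀ v : List C.I, v.length ≤ H → v.Sublist (full C H) := by
  induction H with
  | zero =>
    intro v hv
    have : v = [] := List.length_eq_zero_iff.mp (by omega)
    subst this
    exact List.Sublist.refl _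
  | succ H ih =>
    intro v hv
    cases v with
    | nil => exact List.nil_sublist _
    | cons i v =>
      have h1 : [i].Sublist (Finset.univ : Finset C.I).toList :=
        List.singleton_sublist.mpr (Finset.mem_toList.mpr (Finset.mem_univ i))
      exact h1.append (ih v (by simpa using hv))

variable (F F' : Family C)

theorem Sig_exists (l : C.I → ℕ) (w : List C.I) (b : (F.B l).B) (h : F.Str l w.reverse b) :
    ∃ m, F.Sig l w b m := by
  obtain ⟨c, hc⟩ := Th_exists F (fun i => (F.B l).eps i b) l b (fun i => le_rfl)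
  have hc' := Th_symm F hc
  exact ⟨_, _, c, hc', (Str_iff F hc' w).mpr h, rfl⟩

theorem exists_word (l : C.I → ℕ) : ∃ w : List C.I, (∀ b, F.Str l w.reverse b) ∧
    ∀ b, F'.Str l w.reverse b := by
  obtain ⟨H, hH⟩ := depth_bound F l
  obtain ⟨H', hH'⟩ := depth_bound F' l
  refine ⟨(full C (H + H')).reverse, ?_, ?_⟩
  · intro b
    obtain ⟨v, hv⟩ := F.gen l b
    rw [List.reverse_reverse, ← mem_Dem_iff]
    exact Dem_sublist F l (sublist_full _ v ((hH v b hv).trans (Nat.le_add_right _ _)))
      (mem_Dem_fword F l v b hv)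
  · intro b
    obtain ⟨v, hv⟩ := F'.gen l b
    rw [List.reverse_reverse, ← mem_Dem_iff]
    exact Dem_sublist F' l (sublist_full _ v ((hH' v b hv).trans (Nat.le_add_left _ _)))
      (mem_Dem_fword F' l v b hv)

/-- elements with the same string data -/
def Rel (l : C.I → ℕ) (w : List C.I) (b : (F.B l).B) (b' : (F'.B l).B) : Prop :=
  ∃ m, F.Sig l w b m ∧ F'.Sig l w b' m

theorem Rel_symm {l : C.I → ℕ} {w : List C.I} {b : (F.B l).B} {b' : (F'.B l).B}
    (h : Rel F F' l w b b') : Rel F' F l w b' b := by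
  obtain ⟨m, h1, h2⟩ := h
  exact ⟨m, h2, h1⟩

theorem Rel_unique {l : C.I → ℕ} {w : List C.I} {b : (F.B l).B} {b' b'' : (F'.B l).B}
    (h : Rel F F' l w b b') (h' : Rel F F' l w b b'') : b' = b'' := by
  obtain ⟨m, h1, h2⟩ := h
  obtain ⟨m', h1', h2'⟩ := h'
  have h3 := Sig_unique F w l b m m' h1 h1'
  subst h3
  exact Sig_inj F' w l b' b'' m h2 h2'

theorem Rel_wt {l : C.I → ℕ} {w : List C.I} {b : (F.B l).B} {b' : (F'.B l).B}
    (h : Rel F F' l w b b') : (F.B l).wt b = (F'.B l).wt b' := by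
  obtain ⟨m, h1, h2⟩ := h
  rw [Sig_wt F h1, Sig_wt F' h2]

theorem Rel_eps {l : C.I → ℕ} {w : List C.I} {b : (F.B l).B} {b' : (F'.B l).B}
    (h : Rel F F' l w b b') (j : C.I) : (F.B l).eps j b = (F'.B l).eps j b' := by
  obtain ⟨m, h1, h2⟩ := h
  rw [Sig_eps F j w l b m h1, Sig_eps F' j w l b' m h2]

theorem Rel_phi {l : C.I → ℕ} {w : List C.I} {b : (F.B l).B} {b' : (F'.B l).B}
    (h : Rel F F' l w b b') (j : C.I) : (F.B l).phi j b = (F'.B l).phi j b' := by
  have h1 := (F.B l).phi_eps j b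
  have h2 := (F'.B l).phi_eps j b'
  rw [Rel_eps F F' h j, Rel_wt F F' h] at h1
  omega

theorem sd_hw (mu : C.I → ℕ) (w : List C.I) :
    (F.B mu).sd w (F.hw mu) = List.replicate w.length 0 ∧ F.Str mu w (F.hw mu) := by
  induction w with
  | nil => exact ⟨rfl, rfl⟩
  | cons i w ih =>
    have h1 : (F.B mu).emax i (F.hw mu) = F.hw mu := (F.B mu).emax_none i _ (F.e_hw mu i)
    constructor
    · change (F.B mu).eps i (F.hw mu) :: (F.B mu).sd w ((F.B mu).emax i (F.hw mu)) = _
      rw [h1, eps_hw, ih.1, List.length_cons, List.replicate_succ]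
    · change F.Str mu w ((F.B mu).emax i (F.hw mu))
      rw [h1]
      exact ih.2

theorem Rel_hw (l : C.I → ℕ) (w : List C.I) : Rel F F' l w (F.hw l) (F'.hw l) :=
  ⟨List.replicate w.length 0, ⟨0, F.hw 0, Th_hw F l 0, (sd_hw F 0 w).2, (sd_hw F 0 w).1⟩,
    ⟨0, F'.hw 0, Th_hw F' l 0, (sd_hw F' 0 w).2, (sd_hw F' 0 w).1⟩⟩

theorem Rel_f {l : C.I → ℕ} {w : List C.I} (hw : ∀ b, F.Str l w.reverse b)
    (hw' : ∀ b, F'.Str l w.reverse b) {b d : (F.B l).B} {b' : (F'.B l).B}
    (h : Rel F F' l w b b') (j : C.I) (hd : (F.B l).f j b = some d) :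
    ∃ d', (F'.B l).f j b' = some d' ∧ Rel F F' l w d d' := by
  have h1 := (F.B l).phi_some j b d hd
  rw [Rel_phi F F' h j] at h1
  obtain ⟨d', hd'⟩ := (F'.B l).f_ne_none j b' (by omega)
  refine ⟨d', hd', ?_⟩
  obtain ⟨m, h2, h3⟩ := h
  obtain ⟨m1, h4⟩ := Sig_exists F l w d (hw d)
  obtain ⟨m2, h5⟩ := Sig_exists F' l w d' (hw' d')
  have h6 := Sig_f F j w l b d m m1 h2 hd h4
  have h7 := Sig_f F' j w l b' d' m m2 h3 hd' h5
  rw [← h7] at h6
  subst h6
  exact ⟨m1, h4, h5⟩

theorem Rel_total {l : C.I → ℕ} {w : List C.I} (hw : ∀ b, F.Str l w.reverse b)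
    (hw' : ∀ b, F'.Str l w.reverse b) (v : List C.I) : ∀ b : (F.B l).B,
    (F.B l).fword v (F.hw l) = some b → ∃ b', Rel F F' l w b b' := by
  induction v with
  | nil =>
    intro b hb
    have h0 : F.hw l = b := Option.some.inj hb
    subst h0
    exact ⟨F'.hw l, Rel_hw F F' l w⟩
  | cons i v ih =>
    intro b hb
    have h1 : ((F.B l).fword v (F.hw l)).bind ((F.B l).f i) = some b := hb
    rw [Option.bind_eq_some_iff] at h1
    obtain ⟨y, hy, hy'⟩ := h1
    obtain ⟨y', hy2⟩ := ih y hy
    obtain ⟨d', -, hd'⟩ := Rel_f F F' hw hw' hy2 i hy'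
    exact ⟨d', hd'⟩

/-- Two families of crystals for the same Cartan matrix are isomorphic. -/
theorem family_unique (l : C.I → ℕ) : ∃ g : Mor (F.B l) (F'.B l), Function.Bijective g.map ∧
    g.map (F.hw l) = F'.hw l := by
  obtain ⟨w, hw, hw'⟩ := exists_word F F' l
  have htot : ∀ b : (F.B l).B, ∃ b', Rel F F' l w b b' := by
    intro b
    obtain ⟨v, hv⟩ := F.gen l b
    exact Rel_total F F' hw hw' v b hv
  choose g hg using htot
  have hf : ∀ i b, (F'.B l).f i (g b) = ((F.B l).f i b).map g := by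
    intro i b
    cases h : (F.B l).f i b with
    | none =>
      have h1 := (F.B l).phi_none i b h
      rw [Rel_phi F F' (hg b) i] at h1
      cases h2 : (F'.B l).f i (g b) with
      | none => rfl
      | some x =>
        have := (F'.B l).phi_some i _ _ h2
        omega
    | some d =>
      obtain ⟨d', hd', h1⟩ := Rel_f F F' hw hw' (hg b) i h
      rw [hd', Rel_unique F F' h1 (hg d)]
      rfl
  refine ⟨⟨g, ?_, hf, fun b => (Rel_wt F F' (hg b)).symm⟩, ⟨?_, ?_⟩, ?_⟩
  · intro i b
    cases h : (F.B l).e i b with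
    | none =>
      have h1 := (F.B l).eps_none i b h
      rw [Rel_eps F F' (hg b) i] at h1
      cases h2 : (F'.B l).e i (g b) with
      | none => rfl
      | some x =>
        have := (F'.B l).eps_some i _ _ h2
        omega
    | some d =>
      have h1 := ((F.B l).f_iff i d b).mpr h
      have h2 := hf i d
      rw [h1] at h2
      exact ((F'.B l).f_iff i (g d) (g b)).mp h2
  · intro b b' h
    have h1 := Rel_symm F F' (hg b)
    have h2 := Rel_symm F F' (hg b')
    change g b = g b' at h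
    rw [h] at h1
    exact Rel_unique F' F h1 h2
  · intro y
    obtain ⟨v, hv⟩ := F'.gen l y
    obtain ⟨x, hx⟩ := Rel_total F' F hw' hw v y hv
    exact ⟨x, Rel_unique F F' (hg x) (Rel_symm F' F hx)⟩
  · exact Rel_unique F F' (hg (F.hw l)) (Rel_hw F F' l w)

end Pool.Agent.H59.KY
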