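import Pool.Agent.H59.KY.Strip

/-!
Weyl group words, extremal elements, keys.
-/

set_option autoImplicit false

open scoped Classical

namespace Pool.Agent.H59.KY

variable {C : Cartan}

theorem s_apply (i : C.I) (x : C.Wt) : C.s i x = x - x i • C.al i := rfl

theorem s_mul_self (i : C.I) : C.s i * C.s i = 1 := by
  apply LinearEquiv.ext
  intro x
  exact (C.s i).left_inv x

theorem wprod_nil : C.wprod ([] : List C.I) = 1 := rfl

theorem wprod_cons (i : C.I) (l : List C.I) : C.wprod (i :: l) = C.s i * C.wprod l := by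
  unfold Cartan.wprod
  rw [List.map_cons, List.prod_cons]

theorem wprod_append (l l' : List C.I) : C.wprod (l ++ l') = C.wprod l * C.wprod l' := by
  unfold Cartan.wprod
  rw [List.map_append, List.prod_append]

theorem wprod_single (i : C.I) : C.wprod [i] = C.s i := by
  rw [wprod_cons, wprod_nil, mul_one]

theorem wprod_reverse (l : List C.I) : C.wprod l.reverse = (C.wprod l)⁻¹ := by
  induction l with
  | nil => rw [List.reverse_nil, wprod_nil, inv_one]
  | cons i l ih =>
    rw [List.reverse_cons, wprod_append, ih, wprod_single, wprod_cons, mul_inv_rev,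
      inv_eq_of_mul_eq_one_right (s_mul_self i)]

theorem len_le (l : List C.I) : C.len (C.wprod l) ≤ l.length :=
  Nat.sInf_le ⟨l, rfl, rfl⟩

theorem exists_reduced (l : List C.I) : ∃ l', C.Reduced l' (C.wprod l) := by
  have h : C.len (C.wprod l) ∈ {n | ∃ l' : List C.I, C.wprod l' = C.wprod l ∧ l'.length = n} :=
    Nat.sInf_mem ⟨l.length, l, rfl, rfl⟩
  obtain ⟨l', h1, h2⟩ := h
  exact ⟨l', h1, h2⟩

theorem wprod_mem (l : List C.I) : C.wprod l ∈ C.W := by
  induction l with
  | nil => exact C.W.one_mem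
  | cons i l ih =>
    rw [wprod_cons]
    exact C.W.mul_mem (Subgroup.subset_closure ⟨i, rfl⟩) ih

theorem len_inv_le (l : List C.I) : C.len (C.wprod l)⁻¹ ≤ C.len (C.wprod l) := by
  obtain ⟨l', h1, h2⟩ := exists_reduced l
  rw [← h2, ← h1, ← wprod_reverse]
  refine (len_le _).trans ?_
  rw [List.length_reverse]

theorem len_inv {l : List C.I} {w : C.Aut} (h : C.wprod l = w) : C.len w⁻¹ = C.len w := by
  apply le_antisymm
  · rw [← h]
    exact len_inv_le l
  · have h1 := len_inv_le l.reverse
    rwa [wprod_reverse, inv_inv, h] at h1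

theorem reduced_reverse {l : List C.I} {w : C.Aut} (h : C.Reduced l w) :
    C.Reduced l.reverse w⁻¹ := by
  refine ⟨?_, ?_⟩
  · rw [wprod_reverse, h.1]
  · rw [List.length_reverse, h.2, len_inv h.1]

variable (F : Family C)

/-- the weights of `B_λ` are permuted by the simple reflections -/
theorem exists_wt_s (lam : C.I → ℕ) (b : (F.B lam).B) (i : C.I) :
    ∃ b' : (F.B lam).B, (F.B lam).wt b' = C.s i ((F.B lam).wt b) := by
  have h1 := (F.B lam).phi_eps i b
  have h2 := (F.B lam).phi_emax i b
  refine ⟨(F.B lam).down i ((F.B lam).phi i b) ((F.B lam).emax i b), ?_⟩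
  rw [(F.B lam).wt_down i _ _ (by omega), (F.B lam).wt_emax, s_apply]
  have h3 : (F.B lam).wt b i = (F.B lam).phi i b - (F.B lam).eps i b := by linarith
  rw [h3, sub_smul]
  abel

/-- the weights of `B_λ` are permuted by the Weyl group -/
theorem exists_wt_wprod (lam : C.I → ℕ) (b : (F.B lam).B) (l : List C.I) :
    ∃ b' : (F.B lam).B, (F.B lam).wt b' = C.wprod l ((F.B lam).wt b) := by
  induction l with
  | nil => exact ⟨b, rfl⟩
  | cons i l ih =>
    obtain ⟨b1, h1⟩ := ih
    obtain ⟨b2, h2⟩ := exists_wt_s F lam b1 i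
    refine ⟨b2, ?_⟩
    rw [h2, h1, wprod_cons]
    rfl

/-- elements of extremal weight are extremal -/
theorem extremal (lam : C.I → ℕ) (l : List C.I) (v : (F.B lam).B)
    (h : (F.B lam).wt v = C.wprod l (C.dom lam)) (i : C.I) :
    (F.B lam).eps i v = 0 ∨ (F.B lam).phi i v = 0 := by
  by_contra hcon
  push Not at hcon
  obtain ⟨he, hf⟩ := hcon
  obtain ⟨v1, h1⟩ := (F.B lam).e_ne_none i v (Nat.pos_of_ne_zero he)
  obtain ⟨v2, h2⟩ := (F.B lam).f_ne_none i v (Nat.pos_of_ne_zero hf)
  have h3 := (F.B lam).wt_e i _ _ h1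
  have h4 := (F.B lam).wt_f i _ _ h2
  obtain ⟨u1, h5⟩ := exists_wt_wprod F lam v1 l.reverse
  obtain ⟨u2, h6⟩ := exists_wt_wprod F lam v2 l.reverse
  have hinv : ∀ x : C.Wt, C.wprod l.reverse (C.wprod l x) = x := by
    intro x
    rw [wprod_reverse]
    exact (C.wprod l).left_inv x
  rw [h3, h, map_add, hinv] at h5
  rw [h4, h, map_sub, hinv] at h6
  obtain ⟨n1, h7⟩ := wt_le F lam u1
  obtain ⟨n2, h8⟩ := wt_le F lam u2
  rw [h5] at h7
  rw [h6] at h8
  have h9 : C.root ((fun j => (n1 j : ℤ)) + (fun j => (n2 j : ℤ))) = 0 := by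
    rw [root_add]
    linear_combination h7 + h8
  have h10 := root_indep _ h9
  have h11 : C.root (fun j => (n1 j : ℤ)) = 0 := by
    have h12 : (fun j => (n1 j : ℤ)) = fun _ => (0 : ℤ) := by
      funext j
      have := congrFun h10 j
      simp only [Pi.add_apply, Pi.zero_apply] at this
      omega
    rw [h12]
    unfold Cartan.root
    simp only [zero_smul, Finset.sum_const_zero]
  rw [h11] at h7
  have h13 : C.wprod l.reverse (C.al i) = 0 := by linear_combination h7
  have h14 := (LinearEquiv.map_eq_zero_iff (C.wprod l.reverse)).mp h13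
  exact al_ne_zero i h14

/-- an element of extremal weight which is stripped to `b_λ` along `l` has weight given by a
subword of `l` -/
theorem extremal_strip (lam : C.I → ℕ) (l0 l : List C.I) (v : (F.B lam).B)
    (h : (F.B lam).wt v = C.wprod l0 (C.dom lam)) (hv : F.Str lam l v) :
    ∃ l', l'.Sublist l ∧ C.wprod l0 (C.dom lam) = C.wprod l' (C.dom lam) := by
  induction l generalizing v l0 with
  | nil =>
    have h1 : v = F.hw lam := hv
    refine ⟨[], List.Sublist.refl _, ?_⟩
    rw [← h, h1, wt_hw_eq]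
    rfl
  | cons i l ih =>
    have h1 : F.Str lam l ((F.B lam).emax i v) := hv
    rcases extremal F lam l0 v h i with he | hf
    · have h2 : (F.B lam).emax i v = v := by
        unfold Crystal.emax
        rw [he, Crystal.up_zero]
      rw [h2] at h1
      obtain ⟨l', hl', h3⟩ := ih l0 v h h1
      exact ⟨l', hl'.trans (List.sublist_cons_self i l), h3⟩
    · have h2 := (F.B lam).phi_eps i v
      have h3 : (F.B lam).wt ((F.B lam).emax i v) = C.wprod (i :: l0) (C.dom lam) := by
        rw [(F.B lam).wt_emax, wprod_cons, LinearEquiv.mul_apply, ← h, s_apply]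
        rw [hf] at h2
        have h4 : (F.B lam).wt v i = - ((F.B lam).eps i v : ℤ) := by
          push_cast at h2
          linarith
        rw [h4, neg_smul, sub_neg_eq_add]
      obtain ⟨l', hl', h4⟩ := ih (i :: l0) _ h3 h1
      refine ⟨i :: l', hl'.cons_cons i, ?_⟩
      rw [wprod_cons, LinearEquiv.mul_apply] at h4
      rw [wprod_cons, LinearEquiv.mul_apply, ← h4]
      exact ((C.s i).left_inv _).symm

/-- the extremal element is in the Demazure crystal -/
theorem extremal_mem (lam : C.I → ℕ) (w : C.Aut) (l : List C.I) (hl : C.Reduced l w)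
    (hmin : ∀ x ∈ C.W, x (C.dom lam) = C.dom lam → x ≠ 1 → C.len w < C.len (w * x)) :
    ∃ u : (F.B lam).B, F.Str lam l u ∧ (F.B lam).wt u = w (C.dom lam) := by
  induction l generalizing w with
  | nil =>
    refine ⟨F.hw lam, rfl, ?_⟩
    rw [wt_hw_eq, ← hl.1]
    rfl
  | cons i l ih =>
    obtain ⟨hw, hlen⟩ := hl
    have hlen' : C.len w = l.length + 1 := by rw [← hlen, List.length_cons]
    have hle1 : ∀ x : C.Aut, x ∈ C.W → (∃ l', C.wprod l' = x) := by
      intro x hx
      unfold Cartan.W at hx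
      induction hx using Subgroup.closure_induction with
      | mem x hx =>
        obtain ⟨j, rfl⟩ := hx
        exact ⟨[j], wprod_single j⟩
      | one => exact ⟨[], rfl⟩
      | mul x y _ _ hx hy =>
        obtain ⟨l1, rfl⟩ := hx
        obtain ⟨l2, rfl⟩ := hy
        exact ⟨l1 ++ l2, wprod_append l1 l2⟩
      | inv x _ hx =>
        obtain ⟨l1, rfl⟩ := hx
        exact ⟨l1.reverse, wprod_reverse l1⟩
    have hcons : ∀ l' : List C.I, C.len (C.s i * C.wprod l') ≤ C.len (C.wprod l') + 1 := by
      intro l'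
      obtain ⟨l'', h1, h2⟩ := exists_reduced l'
      rw [← h2, ← h1, ← wprod_cons]
      exact len_le (i :: l'')
    have hred : C.len (C.wprod l) = l.length := by
      apply le_antisymm (len_le l)
      have h1 := hcons l
      rw [← wprod_cons, hw] at h1
      omega
    obtain ⟨u1, h1, h2⟩ := ih (C.wprod l) ⟨rfl, hred.symm⟩ (by
      intro x hx hx1 hx2
      have h3 := hmin x hx hx1 hx2
      obtain ⟨lx, hlx⟩ := hle1 x hx
      have h4 := hcons (l ++ lx)
      rw [wprod_append, hlx, ← mul_assoc, ← wprod_cons, hw] at h4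
      omega)
    have hno : ∀ u2 : (F.B lam).B, F.Str lam l u2 → (F.B lam).wt u2 = w (C.dom lam) → False := by
      intro u2 h3 h4
      obtain ⟨l', hl', h5⟩ := extremal_strip F lam (i :: l) l u2 (by rw [hw, h4]) h3
      rw [hw] at h5
      have h6 : l'.length ≤ l.length := hl'.length_le
      by_cases hx : w⁻¹ * C.wprod l' = 1
      · have h7 : w = C.wprod l' := by
          rw [← mul_one w, ← hx, mul_inv_cancel_left]
        have h8 := len_le l'
        rw [← h7] at h8
        omega
      · have h7 := hmin (w⁻¹ * C.wprod l') (by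
          apply C.W.mul_mem
          · rw [← hw]
            exact C.W.inv_mem (wprod_mem _)
          · exact wprod_mem _) (by
          rw [LinearEquiv.mul_apply, ← h5]
          exact w.left_inv _) hx
        rw [mul_inv_cancel_left] at h7
        have h8 := len_le l'
        omega
    have hphieps := (F.B lam).phi_eps i u1
    have heps : (F.B lam).eps i u1 = 0 := by
      rcases extremal F lam l u1 h2 i with he | hf
      · exact he
      · exfalso
        refine hno ((F.B lam).emax i u1) (Str_emax F lam l u1 i h1) ?_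
        rw [(F.B lam).wt_emax, ← hw, wprod_cons, LinearEquiv.mul_apply, ← h2, s_apply]
        rw [hf] at hphieps
        have h4 : (F.B lam).wt u1 i = - ((F.B lam).eps i u1 : ℤ) := by
          push_cast at hphieps
          linarith
        rw [h4, neg_smul, sub_neg_eq_add]
    refine ⟨(F.B lam).down i ((F.B lam).phi i u1) u1, ?_, ?_⟩
    · have h3 : (F.B lam).emax i ((F.B lam).down i ((F.B lam).phi i u1) u1) = u1 := by
        unfold Crystal.emax
        rw [(F.B lam).eps_down i _ _ le_rfl, heps, Nat.zero_add,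
          (F.B lam).up_down i _ _ _ le_rfl le_rfl, Nat.sub_self]
        rfl
      change F.Str lam l ((F.B lam).emax i _)
      rw [h3]
      exact h1
    · rw [(F.B lam).wt_down i _ _ le_rfl, ← hw, wprod_cons, LinearEquiv.mul_apply, ← h2, s_apply]
      rw [heps] at hphieps
      push_cast at hphieps
      rw [zero_add] at hphieps
      rw [hphieps]

/-- one inclusion of Demazure crystals gives an inequality of lengths -/
theorem len_le_of_subset (lam : C.I → ℕ) (w v : C.Aut) (hw : ∃ l, C.Reduced l w)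
    (hmin : ∀ x ∈ C.W, x (C.dom lam) = C.dom lam → x ≠ 1 → C.len w < C.len (w * x))
    (hsub : F.DemW lam w ⊆ F.DemW lam v) : C.len w ≤ C.len v ∧ (C.len w = C.len v → w = v) := by
  obtain ⟨l, hl⟩ := hw
  obtain ⟨u, h1, h2⟩ := extremal_mem F lam w l hl hmin
  obtain ⟨l', hl', h3⟩ := hsub ⟨l, hl, (mem_Dem_iff F lam l u).mpr h1⟩
  have h4 := (mem_Dem_iff F lam l' u).mp h3
  obtain ⟨l'', hsl, h5⟩ := extremal_strip F lam l l' u (by rw [hl.1, h2]) h4
  rw [hl.1] at h5
  have h6 : l''.length ≤ l'.length := hsl.length_le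
  rw [hl'.2] at h6
  have h8 := len_le l''
  by_cases hx : w⁻¹ * C.wprod l'' = 1
  · have h7 : w = C.wprod l'' := by
      rw [← mul_one w, ← hx, mul_inv_cancel_left]
    rw [← h7] at h8
    refine ⟨h8.trans h6, fun h9 => ?_⟩
    have h10 : l'' = l' := hsl.eq_of_length (by rw [hl'.2]; omega)
    rw [h7, h10]
    exact hl'.1
  · have h7 := hmin (w⁻¹ * C.wprod l'') (by
      apply C.W.mul_mem
      · rw [← hl.1]
        exact C.W.inv_mem (wprod_mem _)
      · exact wprod_mem _) (by
      rw [LinearEquiv.mul_apply, ← h5]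
      exact w.left_inv _) hx
    rw [mul_inv_cancel_left] at h7
    constructor
    · omega
    · intro h9
      omega

/-- the set of `w` with `b ∈ B_w(λ)` is inverted by the commutor -/
theorem DemW_iff {lam mu : C.I → ℕ} {c : (F.B mu).B} {b : (F.B lam).B} (h : F.Th lam mu c b)
    (w : C.Aut) : b ∈ F.DemW lam w ↔ c ∈ F.DemW mu w⁻¹ := by
  constructor
  · rintro ⟨l, hl, hb⟩
    refine ⟨l.reverse, reduced_reverse hl, ?_⟩
    rw [mem_Dem_iff] at hb ⊢
    exact (Str_iff F (Th_symm F h) l).mp hb
  · rintro ⟨l, hl, hc⟩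
    refine ⟨l.reverse, ?_, ?_⟩
    · have := reduced_reverse hl
      rwa [inv_inv] at this
    · rw [mem_Dem_iff] at hc ⊢
      exact (Str_iff F h l).mp hc

theorem key_inv {lam mu : C.I → ℕ} {c : (F.B mu).B} {b : (F.B lam).B} (h : F.Th lam mu c b)
    (w w' : C.Aut) (hw : F.IsKey lam b w) (hw' : F.IsKey mu c w') : w' = w⁻¹ := by
  obtain ⟨h1, h2, h3⟩ := hw
  obtain ⟨h1', h2', h3'⟩ := hw'
  have h4 : F.DemW mu w' ⊆ F.DemW mu w⁻¹ := h2' _ ((DemW_iff F h w).mp h1)
  have h5 : F.DemW lam w ⊆ F.DemW lam w'⁻¹ := by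
    apply h2
    rw [DemW_iff F h, inv_inv]
    exact h1'
  obtain ⟨l, hl, -⟩ := id h1
  obtain ⟨l', hl', -⟩ := id h1'
  have h6 := len_le_of_subset F lam w w'⁻¹ ⟨l, hl⟩ h3 h5
  have h7 := len_le_of_subset F mu w' w⁻¹ ⟨l', hl'⟩ h3' h4
  rw [len_inv hl'.1] at h6
  rw [len_inv hl.1] at h7
  exact h7.2 (le_antisymm h7.1 h6.1)

end Pool.Agent.H59.KY
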