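import Pool.Agent.H59.KY.Tools

/-!
Strings in a crystal, in a tensor product, and under morphisms.
-/

set_option autoImplicit false

open scoped Classical

namespace Pool.Agent.H59.KY

variable {C : Cartan}

namespace Crystal

variable (X Y : Crystal C)

theorem up_zero (i : C.I) (b : X.B) : X.up i 0 b = b := rfl

theorem up_none (i : C.I) (n : ℕ) (b : X.B) (h : X.e i b = none) : X.up i n b = b := by
  cases n with
  | zero => rfl
  | succ n => simp only [up, h]

theorem up_some (i : C.I) (n : ℕ) (b b' : X.B) (h : X.e i b = some b') :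
    X.up i (n + 1) b = X.up i n b' := by
  simp only [up, h]

theorem down_none (i : C.I) (n : ℕ) (b : X.B) (h : X.f i b = none) : X.down i n b = b := by
  cases n with
  | zero => rfl
  | succ n => simp only [down, h]

theorem down_some (i : C.I) (n : ℕ) (b b' : X.B) (h : X.f i b = some b') :
    X.down i (n + 1) b = X.down i n b' := by
  simp only [down, h]

theorem emax_none (i : C.I) (b : X.B) (h : X.e i b = none) : X.emax i b = b :=
  X.up_none i _ b h

theorem emax_some (i : C.I) (b b' : X.B) (h : X.e i b = some b') : X.emax i b = X.emax i b' := by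
  unfold emax
  rw [X.eps_some i b b' h, X.up_some i _ b b' h]

theorem emax_of_f (i : C.I) (b b' : X.B) (h : X.f i b = some b') : X.emax i b' = X.emax i b :=
  X.emax_some i b' b ((X.f_iff i b b').mp h)

theorem e_ne_none (i : C.I) (b : X.B) (h : 0 < X.eps i b) : ∃ b', X.e i b = some b' := by
  cases h1 : X.e i b with
  | none => rw [X.eps_none i b h1] at h; exact absurd h (lt_irrefl 0)
  | some b' => exact ⟨b', rfl⟩

theorem f_ne_none (i : C.I) (b : X.B) (h : 0 < X.phi i b) : ∃ b', X.f i b = some b' := by
  cases h1 : X.f i b with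
  | none => rw [X.phi_none i b h1] at h; exact absurd h (lt_irrefl 0)
  | some b' => exact ⟨b', rfl⟩

/-- induction along the `i`-string, upwards -/
theorem ind_e (i : C.I) (P : X.B → Prop) (h0 : ∀ b, X.e i b = none → P b)
    (h1 : ∀ b b', X.e i b = some b' → P b' → P b) (b : X.B) : P b := by
  induction hn : X.eps i b generalizing b with
  | zero =>
    apply h0
    cases h2 : X.e i b with
    | none => rfl
    | some b' => have := X.eps_some i b b' h2; omega
  | succ n ih =>
    obtain ⟨b', hb'⟩ := X.e_ne_none i b (by omega)
    have := X.eps_some i b b' hb'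
    exact h1 b b' hb' (ih b' (by omega))

/-- induction along the `i`-string, downwards -/
theorem ind_f (i : C.I) (P : X.B → Prop) (h0 : ∀ b, X.f i b = none → P b)
    (h1 : ∀ b b', X.f i b = some b' → P b' → P b) (b : X.B) : P b := by
  induction hn : X.phi i b generalizing b with
  | zero =>
    apply h0
    cases h2 : X.f i b with
    | none => rfl
    | some b' => have := X.phi_some i b b' h2; omega
  | succ n ih =>
    obtain ⟨b', hb'⟩ := X.f_ne_none i b (by omega)
    have := X.phi_some i b b' hb'
    exact h1 b b' hb' (ih b' (by omega))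

theorem e_emax (i : C.I) (b : X.B) : X.e i (X.emax i b) = none := by
  refine X.ind_e i (fun b => X.e i (X.emax i b) = none) ?_ ?_ b
  · intro b h
    rw [X.emax_none i b h, h]
  · intro b b' h ih
    rw [X.emax_some i b b' h, ih]

theorem eps_emax (i : C.I) (b : X.B) : X.eps i (X.emax i b) = 0 :=
  X.eps_none i _ (X.e_emax i b)

theorem phi_emax (i : C.I) (b : X.B) : X.phi i (X.emax i b) = X.phi i b + X.eps i b := by
  refine X.ind_e i (fun b => X.phi i (X.emax i b) = X.phi i b + X.eps i b) ?_ ?_ b
  · intro b h
    rw [X.emax_none i b h, X.eps_none i b h, add_zero]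
  · intro b b' h ih
    have h1 := X.eps_some i b b' h
    have h2 := X.phi_some i b' b ((X.f_iff i b' b).mpr h)
    rw [X.emax_some i b b' h, ih]
    omega

/-- one more step of `down` -/
theorem down_succ (i : C.I) (n : ℕ) (b : X.B) (h : n < X.phi i b) :
    X.f i (X.down i n b) = some (X.down i (n + 1) b) := by
  induction n generalizing b with
  | zero =>
    obtain ⟨b1, h1⟩ := X.f_ne_none i b h
    rw [X.down_some i 0 b b1 h1]
    exact h1
  | succ n ih =>
    obtain ⟨b1, h1⟩ := X.f_ne_none i b (by omega)
    have h2 := X.phi_some i b b1 h1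
    rw [X.down_some i n b b1 h1, X.down_some i (n + 1) b b1 h1]
    exact ih b1 (by omega)

theorem phi_down (i : C.I) (n : ℕ) (b : X.B) (h : n ≤ X.phi i b) :
    X.phi i (X.down i n b) = X.phi i b - n := by
  induction n with
  | zero => rfl
  | succ n ih =>
    have h1 := X.phi_some i _ _ (X.down_succ i n b (by omega))
    have h2 := ih (by omega)
    omega

theorem eps_down (i : C.I) (n : ℕ) (b : X.B) (h : n ≤ X.phi i b) :
    X.eps i (X.down i n b) = X.eps i b + n := by
  induction n with
  | zero => rfl
  | succ n ih =>
    have h1 := X.eps_some i _ _ ((X.f_iff i _ _).mp (X.down_succ i n b (by omega)))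
    have h2 := ih (by omega)
    omega

/-- `b = f_i^{eps} (emax b)` -/
theorem down_emax (i : C.I) (b : X.B) : X.down i (X.eps i b) (X.emax i b) = b := by
  refine X.ind_e i (fun b => X.down i (X.eps i b) (X.emax i b) = b) ?_ ?_ b
  · intro b h
    rw [X.emax_none i b h, X.eps_none i b h]
    rfl
  · intro b b' h ih
    have h1 := X.eps_some i b b' h
    have h2 := X.phi_some i b' b ((X.f_iff i b' b).mpr h)
    have h3 := X.phi_emax i b'
    have h4 := X.down_succ i (X.eps i b') (X.emax i b') (by omega)
    rw [ih, (X.f_iff i b' b).mpr h] at h4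
    rw [X.emax_some i b b' h, h1]
    exact (Option.some.inj h4).symm

/-- `down` written with `fword` -/
theorem fword_replicate (i : C.I) (n : ℕ) (b : X.B) (h : n ≤ X.phi i b) :
    X.fword (List.replicate n i) b = some (X.down i n b) := by
  induction n with
  | zero => rfl
  | succ n ih =>
    rw [List.replicate_succ]
    change (X.fword (List.replicate n i) b).bind (X.f i) = _
    rw [ih (by omega)]
    exact X.down_succ i n b (by omega)

theorem fword_replicate_some (i : C.I) (n : ℕ) (b c : X.B)
    (h : X.fword (List.replicate n i) b = some c) : n ≤ X.phi i b ∧ X.down i n b = c := by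
  induction n generalizing c with
  | zero =>
    refine ⟨Nat.zero_le _, ?_⟩
    exact Option.some.inj h
  | succ n ih =>
    rw [List.replicate_succ] at h
    change (X.fword (List.replicate n i) b).bind (X.f i) = some c at h
    rw [Option.bind_eq_some_iff] at h
    obtain ⟨c0, h1, h2⟩ := h
    obtain ⟨h3, h4⟩ := ih c0 h1
    have h5 := X.phi_some i c0 c h2
    have h6 := X.phi_down i n b h3
    rw [h4] at h6
    have h7 := X.down_succ i n b (by omega)
    rw [h4, h2] at h7
    exact ⟨by omega, (Option.some.inj h7).symm⟩

/-- `up` on an element obtained by `down` -/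
theorem up_down (i : C.I) (n k : ℕ) (b : X.B) (h : n ≤ X.phi i b) (hk : k ≤ n) :
    X.up i k (X.down i n b) = X.down i (n - k) b := by
  induction k generalizing n with
  | zero => rfl
  | succ k ih =>
    obtain ⟨m, rfl⟩ : ∃ m, n = m + 1 := ⟨n - 1, by omega⟩
    have h1 := (X.f_iff i _ _).mp (X.down_succ i m b (by omega))
    rw [X.up_some i k _ _ h1, ih m (by omega) (by omega)]
    congr 1
    omega

theorem wt_f (i : C.I) (b b' : X.B) (h : X.f i b = some b') : X.wt b' = X.wt b - C.al i := by
  rw [X.wt_e i b' b ((X.f_iff i b b').mp h), add_sub_cancel_right]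

theorem wt_down (i : C.I) (n : ℕ) (b : X.B) (h : n ≤ X.phi i b) :
    X.wt (X.down i n b) = X.wt b - (n : ℤ) • C.al i := by
  induction n with
  | zero =>
    rw [Nat.cast_zero, zero_smul, sub_zero]
    rfl
  | succ n ih =>
    rw [X.wt_f i _ _ (X.down_succ i n b (by omega)), ih (by omega), Nat.cast_succ, add_smul,
      one_smul, sub_sub]

theorem wt_emax (i : C.I) (b : X.B) : X.wt (X.emax i b) = X.wt b + (X.eps i b : ℤ) • C.al i := by
  refine X.ind_e i (fun b => X.wt (X.emax i b) = X.wt b + (X.eps i b : ℤ) • C.al i) ?_ ?_ b
  · intro b h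
    rw [X.emax_none i b h, X.eps_none i b h, Nat.cast_zero, zero_smul, add_zero]
  · intro b b' h ih
    rw [X.emax_some i b b' h, ih, X.eps_some i b b' h, X.wt_e i b b' h, Nat.cast_succ, add_smul,
      one_smul]
    abel

/-- the string of a tensor product: first the left factor, then the right one -/
theorem emax_tensor (i : C.I) (a : X.B) (b : Y.B) :
    (X.tensor Y).emax i (a, b) = (X.up i (X.eps i a - Y.phi i b) a, Y.emax i b) := by
  have key : ∀ z : (X.tensor Y).B,
      (X.tensor Y).emax i z = (X.up i (X.eps i z.1 - Y.phi i z.2) z.1, Y.emax i z.2) := by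
    intro z
    refine (X.tensor Y).ind_e i (fun z => (X.tensor Y).emax i z =
      (X.up i (X.eps i z.1 - Y.phi i z.2) z.1, Y.emax i z.2)) ?_ ?_ z
    · rintro ⟨a, b⟩ h
      rw [(X.tensor Y).emax_none i _ h]
      change (if Y.phi i b < X.eps i a then (X.e i a).map (fun a => (a, b))
        else (Y.e i b).map (fun b => (a, b))) = none at h
      dsimp only
      split_ifs at h with h1
      · rw [Option.map_eq_none_iff] at h
        have := X.eps_none i a h
        omega
      · rw [Option.map_eq_none_iff] at h
        rw [Y.emax_none i b h, Nat.sub_eq_zero_of_le (not_lt.mp h1)]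
        rfl
    · rintro ⟨a, b⟩ ⟨a', b'⟩ h ih
      rw [(X.tensor Y).emax_some i _ _ h, ih]
      change (if Y.phi i b < X.eps i a then (X.e i a).map (fun a => (a, b))
        else (Y.e i b).map (fun b => (a, b))) = some (a', b') at h
      dsimp only
      split_ifs at h with h1
      · rw [Option.map_eq_some_iff] at h
        obtain ⟨a1, h2, h3⟩ := h
        obtain ⟨rfl, rfl⟩ := Prod.mk.inj h3
        have h4 := X.eps_some i a a1 h2
        have h5 : X.eps i a - Y.phi i b = (X.eps i a1 - Y.phi i b) + 1 := by omega
        rw [h5, X.up_some i _ a a1 h2]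
      · rw [Option.map_eq_some_iff] at h
        obtain ⟨b1, h2, h3⟩ := h
        obtain ⟨rfl, rfl⟩ := Prod.mk.inj h3
        have h4 := Y.phi_some i b1 b ((Y.f_iff i b1 b).mpr h2)
        have h5 : X.eps i a - Y.phi i b = 0 := by omega
        have h6 : X.eps i a - Y.phi i b1 = 0 := by omega
        rw [h5, h6, Y.emax_some i b b1 h2]
  exact key (a, b)

end Crystal

namespace Mor

variable {X Y : Crystal C} (g : Mor X Y)

theorem eps_map (i : C.I) (b : X.B) : Y.eps i (g.map b) = X.eps i b := by
  refine X.ind_e i (fun b => Y.eps i (g.map b) = X.eps i b) ?_ ?_ b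
  · intro b h
    have h1 := g.map_e i b
    rw [h] at h1
    rw [X.eps_none i b h, Y.eps_none i _ h1]
  · intro b b' h ih
    have h1 := g.map_e i b
    rw [h] at h1
    rw [X.eps_some i b b' h, Y.eps_some i _ _ h1, ih]

theorem phi_map (i : C.I) (b : X.B) : Y.phi i (g.map b) = X.phi i b := by
  refine X.ind_f i (fun b => Y.phi i (g.map b) = X.phi i b) ?_ ?_ b
  · intro b h
    have h1 := g.map_f i b
    rw [h] at h1
    rw [X.phi_none i b h, Y.phi_none i _ h1]
  · intro b b' h ih
    have h1 := g.map_f i b
    rw [h] at h1
    rw [X.phi_some i b b' h, Y.phi_some i _ _ h1, ih]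

theorem emax_map (i : C.I) (b : X.B) : Y.emax i (g.map b) = g.map (X.emax i b) := by
  refine X.ind_e i (fun b => Y.emax i (g.map b) = g.map (X.emax i b)) ?_ ?_ b
  · intro b h
    have h1 := g.map_e i b
    rw [h] at h1
    rw [X.emax_none i b h, Y.emax_none i _ h1]
  · intro b b' h ih
    have h1 := g.map_e i b
    rw [h] at h1
    rw [X.emax_some i b b' h, Y.emax_some i _ _ h1, ih]

theorem strip_map (l : List C.I) (b : X.B) : Y.strip l (g.map b) = g.map (X.strip l b) := by
  induction l generalizing b with
  | nil => rfl
  | cons i l ih =>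
    change Y.strip l (Y.emax i (g.map b)) = g.map (X.strip l (X.emax i b))
    rw [g.emax_map i b, ih]

theorem down_map (i : C.I) (n : ℕ) (b : X.B) : Y.down i n (g.map b) = g.map (X.down i n b) := by
  induction n generalizing b with
  | zero => rfl
  | succ n ih =>
    have h1 := g.map_f i b
    cases h : X.f i b with
    | none =>
      rw [h] at h1
      rw [X.down_none i _ b h, Y.down_none i _ _ h1]
    | some b' =>
      rw [h] at h1
      rw [X.down_some i n b b' h, Y.down_some i n _ _ h1, ih]

theorem fword_map (l : List C.I) (b : X.B) : Y.fword l (g.map b) = (X.fword l b).map g.map := by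
  induction l with
  | nil => rfl
  | cons i l ih =>
    change (Y.fword l (g.map b)).bind (Y.f i) = ((X.fword l b).bind (X.f i)).map g.map
    rw [ih]
    cases h : X.fword l b with
    | none => rfl
    | some c => exact g.map_f i c

end Mor

end Pool.Agent.H59.KY
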