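import Pool.Agent.H59.KY.Comp

/-!
Theorem 2 and Lemma 3 of note 2884.
-/

set_option autoImplicit false

open scoped Classical

namespace Pool.Agent.H59.KY

variable {C : Cartan} (F : Family C)

/-- the exponent that is left on the first factor -/
noncomputable def Crystal.left (X : Crystal C) (i : C.I) : List C.I → ℕ → X.B → ℕ
  | [], m, _ => m
  | j :: l, m, b => Crystal.left X i l (if j = i then min m (X.phi i b) else m) (X.emax j b)

theorem left_mono (X : Crystal C) (i : C.I) (l : List C.I) (m m' : ℕ) (b : X.B) (h : m ≤ m') :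
    X.left i l m b ≤ X.left i l m' b := by
  induction l generalizing m m' b with
  | nil => exact h
  | cons j l ih =>
    change X.left i l _ _ ≤ X.left i l _ _
    apply ih
    split_ifs
    · exact min_le_min_right _ h
    · exact h

theorem left_le (X : Crystal C) (i : C.I) (l : List C.I) (m : ℕ) (b : X.B) :
    X.left i l m b ≤ m := by
  induction l generalizing m b with
  | nil => exact le_rfl
  | cons j l ih =>
    change X.left i l _ _ ≤ m
    refine (ih _ _).trans ?_
    split_ifs
    · exact min_le_left _ _
    · exact le_rfl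

/-- stripping `f_i^m b_(n om_i) ⊗ b` -/
theorem strip_tensor (lam' : C.I → ℕ) (i : C.I) (n : ℕ) (l : List C.I) (m : ℕ) (hm : m ≤ n)
    (b : (F.B lam').B) :
    (F.T (Pi.single i n) lam').strip l
        ((F.B (Pi.single i n)).down i m (F.hw (Pi.single i n)), b) =
      ((F.B (Pi.single i n)).down i ((F.B lam').left i l m b) (F.hw (Pi.single i n)),
        (F.B lam').strip l b) := by
  induction l generalizing m b with
  | nil => rfl
  | cons j l ih =>
    have hphi : ∀ k, k ≤ n → k ≤ (F.B (Pi.single i n)).phi i (F.hw (Pi.single i n)) := by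
      intro k hk
      rw [phi_hw, Pi.single_eq_same]
      exact hk
    change (F.T (Pi.single i n) lam').strip l ((F.T (Pi.single i n) lam').emax j
      ((F.B (Pi.single i n)).down i m (F.hw (Pi.single i n)), b)) = _
    rw [Crystal.emax_tensor]
    by_cases hj : j = i
    · subst hj
      have h1 : (F.B (Pi.single j n)).eps j ((F.B (Pi.single j n)).down j m
          (F.hw (Pi.single j n))) = m := by
        rw [(F.B (Pi.single j n)).eps_down j m _ (hphi m hm), eps_hw, zero_add]
      rw [h1, (F.B (Pi.single j n)).up_down j m (m - (F.B lam').phi j b) _ (hphi m hm) (by omega)]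
      have h2 : m - (m - (F.B lam').phi j b) = min m ((F.B lam').phi j b) := by omega
      rw [h2, ih _ (by omega)]
      have h3 : (F.B lam').left j (j :: l) m b =
          (F.B lam').left j l (min m ((F.B lam').phi j b)) ((F.B lam').emax j b) := by
        change (F.B lam').left j l _ _ = _
        rw [if_pos rfl]
      rw [h3]
      rfl
    · have h1 := eps_down_ne F (Pi.single i n) i j hj m (by rw [Pi.single_eq_same]; exact hm)
      rw [h1, Nat.zero_sub, Crystal.up_zero, ih m hm]
      have h3 : (F.B lam').left i (j :: l) m b = (F.B lam').left i l m ((F.B lam').emax j b) := by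
        change (F.B lam').left i l _ _ = _
        rw [if_neg hj]
      rw [h3]
      rfl

/-- stripping `b_nu ⊗ b` -/
theorem strip_tensor_hw (nu lam : C.I → ℕ) (l : List C.I) (b : (F.B lam).B) :
    (F.T nu lam).strip l (F.hw nu, b) = (F.hw nu, (F.B lam).strip l b) := by
  induction l generalizing b with
  | nil => rfl
  | cons j l ih =>
    change (F.T nu lam).strip l ((F.T nu lam).emax j (F.hw nu, b)) = _
    rw [Crystal.emax_tensor, eps_hw, Nat.zero_sub, Crystal.up_zero, ih]
    rfl

theorem strip_append (X : Crystal C) (l l' : List C.I) (b : X.B) :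
    X.strip (l ++ l') b = X.strip l' (X.strip l b) := by
  induction l generalizing b with
  | nil => rfl
  | cons j l ih => exact ih _

/-- an element whose image is highest is highest -/
theorem eq_hw_of_map {l l1 l2 : C.I → ℕ} (J : Mor (F.B l) (F.T l2 l1)) (b : (F.B l).B)
    (h : J.map b = (F.hw l2, F.hw l1)) : b = F.hw l := by
  apply hw_unique
  intro i
  have h1 := J.map_e i b
  rw [h, (tensor_hw F l2 l1 _ _).mpr ⟨rfl, by intro i; rw [eps_hw]; exact Nat.zero_le _⟩ i] at h1
  exact Option.map_eq_none_iff.mp h1.symm

/-- Theorem 2, one direction -/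
theorem Str_reverse (mu : C.I → ℕ) (l : List C.I) : ∀ (lam : C.I → ℕ) (c : (F.B mu).B)
    (b : (F.B lam).B), F.Th lam mu c b → F.Str mu l c → F.Str lam l.reverse b := by
  induction l with
  | nil =>
    intro lam c b h hc
    have h1 : c = F.hw mu := hc
    subst h1
    exact Th_unique F h (Th_hw F lam mu)
  | cons i l ih =>
    intro lam c b h hc
    have hc0 : F.Str mu l ((F.B mu).emax i c) := hc
    -- a large weight
    let N : C.I → ℕ := fun j => lam j + ((F.B mu).eps j c + (F.B mu).eps j ((F.B mu).emax i c))
    let nu : C.I → ℕ := fun j => (F.B mu).eps j c + (F.B mu).eps j ((F.B mu).emax i c)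
    let lam' : C.I → ℕ := fun j => if j = i then 0 else N j
    have hN1 : N = lam + nu := by funext j; rfl
    have hN2 : N = lam' + Pi.single i (N i) := by
      funext j
      rw [Pi.add_apply]
      by_cases hj : j = i
      · subst hj
        rw [Pi.single_eq_same]
        change N j = (if j = j then 0 else N j) + N j
        rw [if_pos rfl, zero_add]
      · rw [Pi.single_eq_of_ne hj]
        change N j = (if j = i then 0 else N j) + 0
        rw [if_neg hj, add_zero]
    have hl0 : lam' i = 0 := by
      change (if i = i then 0 else N i) = 0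
      rw [if_pos rfl]
    have hn : (F.B mu).eps i c ≤ N i := by
      change _ ≤ lam i + ((F.B mu).eps i c + (F.B mu).eps i ((F.B mu).emax i c))
      omega
    have he : ∀ j, (F.B mu).eps j ((F.B mu).emax i c) ≤ lam' j := by
      intro j
      by_cases hj : j = i
      · subst hj
        rw [(F.B mu).eps_emax]
        exact Nat.zero_le _
      · change _ ≤ (if j = i then 0 else N j)
        rw [if_neg hj]
        change _ ≤ lam j + ((F.B mu).eps j c + (F.B mu).eps j ((F.B mu).emax i c))
        omega
    obtain ⟨b1, hb1, hJ1⟩ := Th_stable F h N nu hN1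
    obtain ⟨b2, b0, hb2, hb0, hJ2⟩ := Th_string F c i (N i) N lam' hN2 hl0 hn he
    have hb12 : b2 = b1 := Th_unique F hb2 hb1
    subst hb12
    obtain ⟨J1, hJ1'⟩ := J_exists F N lam nu hN1
    obtain ⟨J2, hJ2'⟩ := J_exists F N lam' (Pi.single i (N i)) hN2
    have h1 := hJ1 J1 hJ1'
    have h2 := hJ2 J2 hJ2'
    have h3 := ih lam' _ b0 hb0 hc0
    -- strip b2 along l.reverse ++ [i]
    have h4 : (F.B N).strip (l.reverse ++ [i]) b2 = F.hw N := by
      apply eq_hw_of_map F J2
      rw [← J2.strip_map, h2, strip_append]
      rw [strip_tensor F lam' i (N i) l.reverse _ hn b0]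
      have h5 : (F.B lam').strip l.reverse b0 = F.hw lam' := h3
      rw [h5]
      have h6 : ∀ z : (F.T (Pi.single i (N i)) lam').B,
          (F.T (Pi.single i (N i)) lam').strip [i] z = (F.T (Pi.single i (N i)) lam').emax i z := by
        intro z; rfl
      rw [h6, Crystal.emax_tensor]
      set k := (F.B lam').left i l.reverse ((F.B mu).eps i c) b0 with hk
      have hkn : k ≤ N i := (left_le _ _ _ _ _).trans hn
      have hphi : k ≤ (F.B (Pi.single i (N i))).phi i (F.hw (Pi.single i (N i))) := by
        rw [phi_hw, Pi.single_eq_same]; exact hkn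
      rw [(F.B (Pi.single i (N i))).eps_down i k _ hphi, eps_hw, phi_hw, hl0, zero_add,
        Nat.sub_zero, (F.B (Pi.single i (N i))).up_down i k k _ hphi le_rfl, Nat.sub_self,
        (F.B lam').emax_none i _ (F.e_hw lam' i)]
      rfl
    have h7 : (F.T nu lam).strip (l.reverse ++ [i]) (F.hw nu, b) = (F.hw nu, F.hw lam) := by
      rw [← h1, J1.strip_map, h4, hJ1']
    rw [strip_tensor_hw] at h7
    have h8 := (Prod.mk.inj h7).2
    change (F.B lam).strip (i :: l).reverse b = F.hw lam
    rw [List.reverse_cons]
    exact h8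

/-- Theorem 2 -/
theorem Str_iff {lam mu : C.I → ℕ} {c : (F.B mu).B} {b : (F.B lam).B} (h : F.Th lam mu c b)
    (l : List C.I) : F.Str mu l c ↔ F.Str lam l.reverse b := by
  constructor
  · exact Str_reverse F mu l lam c b h
  · intro h1
    have h2 := Str_reverse F lam l.reverse mu b c (Th_symm F h) h1
    rwa [List.reverse_reverse] at h2

/-- Lemma 3 -/
theorem Str_e (mu : C.I → ℕ) (l : List C.I) (c c' : (F.B mu).B) (j : C.I)
    (h : (F.B mu).e j c = some c') (hc : F.Str mu l c) : F.Str mu l c' := by
  have hem : (F.B mu).emax j c' = (F.B mu).emax j c := ((F.B mu).emax_some j c c' h).symm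
  have heps := (F.B mu).eps_some j c c' h
  set c0 := (F.B mu).emax j c with hc0
  let lam' : C.I → ℕ := fun k => if k = j then 0 else (F.B mu).eps k c0
  set n := (F.B mu).eps j c with hn
  have hl0 : lam' j = 0 := by
    change (if j = j then 0 else (F.B mu).eps j c0) = 0
    rw [if_pos rfl]
  have he : ∀ k, (F.B mu).eps k c0 ≤ lam' k := by
    intro k
    by_cases hk : k = j
    · subst hk
      rw [hc0, (F.B mu).eps_emax]
      exact Nat.zero_le _
    · change _ ≤ (if k = j then 0 else (F.B mu).eps k c0)
      rw [if_neg hk]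
  obtain ⟨b, b0, hb, hb0, hJ⟩ := Th_string F c j n (lam' + Pi.single j n) lam' rfl hl0 le_rfl he
  obtain ⟨b', b0', hb', hb0', hJ'⟩ := Th_string F c' j n (lam' + Pi.single j n) lam' rfl hl0
    (by omega) (by rw [hem]; exact he)
  have h00 : b0' = b0 := by
    rw [hem] at hb0'
    exact Th_unique F hb0' hb0
  subst h00
  obtain ⟨J, hJJ⟩ := J_exists F (lam' + Pi.single j n) lam' (Pi.single j n) rfl
  have h1 := hJ J hJJ
  have h2 := hJ' J hJJ
  have h3 := (Str_iff F hb l).mp hc
  rw [Str_iff F hb' l]
  have h4 : (F.B (lam' + Pi.single j n)).strip l.reverse b = F.hw _ := h3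
  have h5 : (F.T (Pi.single j n) lam').strip l.reverse (J.map b) =
      (F.hw (Pi.single j n), F.hw lam') := by
    rw [J.strip_map, h4, hJJ]
  rw [h1, strip_tensor F lam' j n l.reverse _ le_rfl b0'] at h5
  have h6 := Prod.mk.inj h5
  have hphi : ∀ k, k ≤ n → k ≤ (F.B (Pi.single j n)).phi j (F.hw (Pi.single j n)) := by
    intro k hk
    rw [phi_hw, Pi.single_eq_same]; exact hk
  have h7 : (F.B lam').left j l.reverse n b0' = 0 := by
    have h8 := (F.B (Pi.single j n)).eps_down j ((F.B lam').left j l.reverse n b0')
      (F.hw (Pi.single j n)) (hphi _ (left_le _ _ _ _ _))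
    rw [h6.1, eps_hw] at h8
    omega
  have h8 : (F.B lam').left j l.reverse ((F.B mu).eps j c') b0' = 0 := by
    have := left_mono (F.B lam') j l.reverse ((F.B mu).eps j c') n b0' (by omega)
    omega
  change (F.B (lam' + Pi.single j n)).strip l.reverse b' = F.hw _
  apply eq_hw_of_map F J
  rw [← J.strip_map, h2, strip_tensor F lam' j n l.reverse _ (by omega) b0', h8, h6.2]
  rfl

theorem Str_emax (mu : C.I → ℕ) (l : List C.I) (c : (F.B mu).B) (j : C.I)
    (hc : F.Str mu l c) : F.Str mu l ((F.B mu).emax j c) := by
  induction hn : (F.B mu).eps j c generalizing c with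
  | zero =>
    cases h : (F.B mu).e j c with
    | none => rw [(F.B mu).emax_none j c h]; exact hc
    | some c' =>
      have := (F.B mu).eps_some j c c' h
      omega
  | succ n ih =>
    cases h : (F.B mu).e j c with
    | none => rw [(F.B mu).emax_none j c h]; exact hc
    | some c' =>
      have h1 := (F.B mu).eps_some j c c' h
      rw [(F.B mu).emax_some j c c' h]
      exact ih c' (Str_e F mu l c c' j h hc) (by omega)

theorem emax_fword_replicate (X : Crystal C) (i : C.I) (a : ℕ) (x c : X.B)
    (h : X.fword (List.replicate a i) x = some c) : X.emax i c = X.emax i x := by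
  induction a generalizing c with
  | zero =>
    have h1 : some x = some c := h
    rw [Option.some.inj h1]
  | succ a ih =>
    have h1 : (X.fword (List.replicate a i) x).bind (X.f i) = some c := h
    rw [Option.bind_eq_some_iff] at h1
    obtain ⟨c1, h2, h3⟩ := h1
    rw [X.emax_of_f i c1 c h3, ih c1 h2]

theorem mem_Dem_iff (lam : C.I → ℕ) (l : List C.I) (b : (F.B lam).B) :
    b ∈ F.Dem lam l ↔ F.Str lam l b := by
  induction l generalizing b with
  | nil => exact Iff.rfl
  | cons i l ih =>
    constructor
    · rintro ⟨x, hx, a, hax⟩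
      have h1 := (ih x).mp hx
      change F.Str lam l ((F.B lam).emax i b)
      rw [emax_fword_replicate _ i a x b hax]
      exact Str_emax F lam l x i h1
    · intro h
      have h1 : F.Str lam l ((F.B lam).emax i b) := h
      refine ⟨(F.B lam).emax i b, (ih _).mpr h1, (F.B lam).eps i b, ?_⟩
      have h2 : (F.B lam).eps i b ≤ (F.B lam).phi i ((F.B lam).emax i b) := by
        have h3 := (F.B lam).wt_emax i b
        have h4 := congrFun h3 i
        rw [Pi.add_apply, Pi.smul_apply, smul_eq_mul, Cartan.al, C.diag] at h4
        have h5 := (F.B lam).phi_eps i b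
        have h6 := (F.B lam).phi_eps i ((F.B lam).emax i b)
        rw [(F.B lam).eps_emax, h4] at h6
        omega
      rw [(F.B lam).fword_replicate i _ _ h2, (F.B lam).down_emax]

end Pool.Agent.H59.KY
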