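import Pool.Agent.H59.KY.Defs

/-!
Auxiliary definitions for the proof: strings, strips, the relation `Th`.
-/

set_option autoImplicit false

open scoped Classical

namespace Pool.Agent.H59.KY

variable {C : Cartan}

/-- apply `e_i` `n` times, stop at the end of the string -/
def Crystal.up (X : Crystal C) (i : C.I) : ℕ → X.B → X.B
  | 0, b => b
  | n + 1, b => match X.e i b with
    | none => b
    | some b' => X.up i n b'

/-- apply `f_i` `n` times, stop at the end of the string -/
def Crystal.down (X : Crystal C) (i : C.I) : ℕ → X.B → X.B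
  | 0, b => b
  | n + 1, b => match X.f i b with
    | none => b
    | some b' => X.down i n b'

/-- the head of the `i`-string of `b` -/
def Crystal.emax (X : Crystal C) (i : C.I) (b : X.B) : X.B := X.up i (X.eps i b) b

/-- strip `b` along a word -/
def Crystal.strip (X : Crystal C) : List C.I → X.B → X.B
  | [], b => b
  | i :: l, b => X.strip l (X.emax i b)

/-- the weight `Σ_j n_j α_j` -/
def Cartan.root (C : Cartan) (n : C.I → ℤ) : C.Wt := ∑ j, n j • C.al j

/-- a dominant weight as a weight -/
def Cartan.dom (C : Cartan) (lam : C.I → ℕ) : C.Wt := fun i => (lam i : ℤ)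

variable (F : Family C)

/-- lowest weight element -/
def Family.low (lam : C.I → ℕ) : (F.B lam).B := F.xi lam (F.hw lam)

/-- elements which are stripped to the highest weight element along `l` -/
def Family.Str (lam : C.I → ℕ) (l : List C.I) (c : (F.B lam).B) : Prop :=
  (F.B lam).strip l c = F.hw lam

/-- the component of `c ⊗ b_lam` in `B_mu ⊗ B_lam` has the lowest weight element `low ⊗ xi b` -/
def Family.Th (lam mu : C.I → ℕ) (c : (F.B mu).B) (b : (F.B lam).B) : Prop :=
  ∃ nu, ∃ g : Mor (F.B nu) (F.T mu lam), g.map (F.hw nu) = (c, F.hw lam) ∧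
    g.map (F.low nu) = (F.low mu, F.xi lam b)

end Pool.Agent.H59.KY
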