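import Pool.Agent.H59.KY.Final

/-!
The family `B_λ` is unique (theorem of Joseph): string data of the partner under the commutor.
-/

set_option autoImplicit false

open scoped Classical

namespace Pool.Agent.H59.KY

variable {C : Cartan}

/-- string data along a word -/
def Crystal.sd (X : Crystal C) : List C.I → X.B → List ℕ
  | [], _ => []
  | i :: l, b => X.eps i b :: Crystal.sd X l (X.emax i b)

/-- relative weight of string data -/
def uw : List C.I → List ℕ → C.Wt
  | i :: w, a :: m => uw w m - (a : ℤ) • C.al i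
  | _, _ => 0

/-- `ε_j` computed from string data -/
noncomputable def ueps (j : C.I) : List C.I → List ℕ → ℕ
  | i :: w, a :: m => if j = i then ueps j w m + (a - ((ueps j w m : ℤ) + uw w m j).toNat)
      else ueps j w m
  | _, _ => 0

/-- `f_j` computed on string data -/
noncomputable def uf (j : C.I) : List C.I → List ℕ → List ℕ
  | i :: w, a :: m => if j = i ∧ ((ueps j w m : ℤ) + uw w m j).toNat ≤ a then (a + 1) :: m
      else a :: uf j w m
  | _, m => m

theorem wt_sd (X : Crystal C) (w : List C.I) (b : X.B) :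
    X.wt b = X.wt (X.strip w b) + uw w (X.sd w b) := by
  induction w generalizing b with
  | nil => exact (add_zero _).symm
  | cons i w ih =>
    have h1 := ih (X.emax i b)
    rw [X.wt_emax] at h1
    change X.wt b = X.wt (X.strip w (X.emax i b)) + (uw w (X.sd w (X.emax i b)) -
      (X.eps i b : ℤ) • C.al i)
    rw [← add_sub_assoc, ← h1, add_sub_cancel_right]

variable (F : Family C)

/-- `m` is the string data of the partner of `b` -/
def Family.Sig (l : C.I → ℕ) (w : List C.I) (b : (F.B l).B) (m : List ℕ) : Prop :=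
  ∃ mu, ∃ c : (F.B mu).B, F.Th l mu c b ∧ F.Str mu w c ∧ (F.B mu).sd w c = m

theorem mor_injective (nu : C.I → ℕ) {Y : Crystal C} (g : Mor (F.B nu) Y) {t t' : (F.B nu).B}
    (h : g.map t = g.map t') : t = t' := by
  obtain ⟨l, hl⟩ := F.gen nu t
  exact mor_inj F nu g l t t' hl h

/-- a large weight -/
theorem setup (l : C.I → ℕ) (i : C.I) (R : C.I → ℕ) : ∃ (n : ℕ) (lam' L nu : C.I → ℕ),
    lam' i = 0 ∧ (∀ j, j ≠ i → R j ≤ lam' j) ∧ R i ≤ n ∧ L = l + nu ∧
    L = lam' + Pi.single i n ∧ (∃ J1 : Mor (F.B L) (F.T nu l), J1.map (F.hw L) =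
      (F.hw nu, F.hw l)) ∧ ∃ J2 : Mor (F.B L) (F.T (Pi.single i n) lam'), J2.map (F.hw L) =
      (F.hw (Pi.single i n), F.hw lam') := by
  let lam' : C.I → ℕ := fun j => if j = i then 0 else l j + R j
  let n : ℕ := l i + R i
  have h1 : l + R = lam' + Pi.single i n := by
    funext j
    rw [Pi.add_apply, Pi.add_apply]
    by_cases hj : j = i
    · subst hj
      rw [Pi.single_eq_same]
      change l j + R j = (if j = j then 0 else l j + R j) + (l j + R j)
      rw [if_pos rfl, zero_add]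
    · rw [Pi.single_eq_of_ne hj]
      change l j + R j = (if j = i then 0 else l j + R j) + 0
      rw [if_neg hj, add_zero]
  refine ⟨n, lam', l + R, R, ?_, ?_, ?_, rfl, h1, J_exists F _ l R rfl,
    J_exists F _ lam' (Pi.single i n) h1⟩
  · change (if i = i then 0 else l i + R i) = 0
    rw [if_pos rfl]
  · intro j hj
    change R j ≤ (if j = i then 0 else l j + R j)
    rw [if_neg hj]
    exact Nat.le_add_left _ _
  · exact Nat.le_add_left _ _

theorem lift {l mu : C.I → ℕ} {c : (F.B mu).B} {b : (F.B l).B} (h : F.Th l mu c b) (i : C.I)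
    (n : ℕ) (lam' L nu : C.I → ℕ) (h0 : lam' i = 0) (hn : (F.B mu).eps i c ≤ n)
    (he : ∀ j, j ≠ i → (F.B mu).eps j ((F.B mu).emax i c) ≤ lam' j)
    (hL1 : L = l + nu) (hL2 : L = lam' + Pi.single i n)
    (J1 : Mor (F.B L) (F.T nu l)) (hJ1 : J1.map (F.hw L) = (F.hw nu, F.hw l))
    (J2 : Mor (F.B L) (F.T (Pi.single i n) lam'))
    (hJ2 : J2.map (F.hw L) = (F.hw (Pi.single i n), F.hw lam')) :
    ∃ (b1 : (F.B L).B) (b0 : (F.B lam').B), F.Th lam' mu ((F.B mu).emax i c) b0 ∧
      J1.map b1 = (F.hw nu, b) ∧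
      J2.map b1 = ((F.B (Pi.single i n)).down i ((F.B mu).eps i c) (F.hw (Pi.single i n)), b0) := by
  obtain ⟨b1, hb1, h1⟩ := Th_stable F h L nu hL1
  obtain ⟨b2, b0, hb2, hb0, h2⟩ := Th_string F c i n L lam' hL2 h0 hn (by
    intro j
    by_cases hj : j = i
    · subst hj
      rw [(F.B mu).eps_emax]
      exact Nat.zero_le _
    · exact he j hj)
  have h3 : b2 = b1 := Th_unique F hb2 hb1
  subst h3
  exact ⟨b2, b0, hb0, h1 J1 hJ1, h2 J2 hJ2⟩

theorem eps_string (i : C.I) (n a : ℕ) (h : a ≤ n) :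
    (F.B (Pi.single i n)).eps i ((F.B (Pi.single i n)).down i a (F.hw (Pi.single i n))) = a := by
  rw [(F.B (Pi.single i n)).eps_down i a _ (by rw [phi_hw, Pi.single_eq_same]; exact h), eps_hw,
    zero_add]

theorem Sig_unique (w : List C.I) : ∀ (l : C.I → ℕ) (b : (F.B l).B) (m m' : List ℕ),
    F.Sig l w b m → F.Sig l w b m' → m = m' := by
  induction w with
  | nil =>
    rintro l b m m' ⟨mu, c, -, -, rfl⟩ ⟨mu', c', -, -, rfl⟩
    rfl
  | cons i w ih =>
    rintro l b m m' ⟨mu, c, hT, hS, rfl⟩ ⟨mu', c', hT', hS', rfl⟩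
    obtain ⟨n, lam', L, nu, h0, hR, hn, hL1, hL2, ⟨J1, hJ1⟩, ⟨J2, hJ2⟩⟩ := setup F l i
      (fun j => (F.B mu).eps j c + (F.B mu).eps j ((F.B mu).emax i c) +
        ((F.B mu').eps j c' + (F.B mu').eps j ((F.B mu').emax i c')))
    have hna : (F.B mu).eps i c ≤ n := by omega
    have hna' : (F.B mu').eps i c' ≤ n := by omega
    obtain ⟨b1, b0, hb0, h1, h2⟩ := lift F hT i n lam' L nu h0 hna
      (fun j hj => by have := hR j hj; omega) hL1 hL2 J1 hJ1 J2 hJ2
    obtain ⟨b1', b0', hb0', h1', h2'⟩ := lift F hT' i n lam' L nu h0 hna'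
      (fun j hj => by have := hR j hj; omega) hL1 hL2 J1 hJ1 J2 hJ2
    have h3 : b1 = b1' := mor_injective F L J1 (by rw [h1, h1'])
    subst h3
    rw [h2] at h2'
    obtain ⟨h4, h5⟩ := Prod.mk.inj h2'
    subst h5
    have h6 := congrArg ((F.B (Pi.single i n)).eps i) h4
    rw [eps_string F i n _ hna, eps_string F i n _ hna'] at h6
    have h7 := ih lam' b0 _ _ ⟨mu, _, hb0, hS, rfl⟩ ⟨mu', _, hb0', hS', rfl⟩
    change (F.B mu).eps i c :: (F.B mu).sd w ((F.B mu).emax i c) =
      (F.B mu').eps i c' :: (F.B mu').sd w ((F.B mu').emax i c')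
    rw [h6, h7]

theorem Sig_inj (w : List C.I) : ∀ (l : C.I → ℕ) (b b' : (F.B l).B) (m : List ℕ),
    F.Sig l w b m → F.Sig l w b' m → b = b' := by
  induction w with
  | nil =>
    rintro l b b' m ⟨mu, c, hT, hS, -⟩ ⟨mu', c', hT', hS', -⟩
    have h1 : c = F.hw mu := hS
    have h2 : c' = F.hw mu' := hS'
    subst h1
    subst h2
    rw [Th_unique F hT (Th_hw F l mu), Th_unique F hT' (Th_hw F l mu')]
  | cons i w ih =>
    rintro l b b' m ⟨mu, c, hT, hS, hm⟩ ⟨mu', c', hT', hS', hm'⟩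
    rw [← hm'] at hm
    have hm1 : (F.B mu).eps i c :: (F.B mu).sd w ((F.B mu).emax i c) =
      (F.B mu').eps i c' :: (F.B mu').sd w ((F.B mu').emax i c') := hm
    obtain ⟨ha, hs⟩ := List.cons.inj hm1
    obtain ⟨n, lam', L, nu, h0, hR, hn, hL1, hL2, ⟨J1, hJ1⟩, ⟨J2, hJ2⟩⟩ := setup F l i
      (fun j => (F.B mu).eps j c + (F.B mu).eps j ((F.B mu).emax i c) +
        ((F.B mu').eps j c' + (F.B mu').eps j ((F.B mu').emax i c')))
    have hna : (F.B mu).eps i c ≤ n := by omega
    have hna' : (F.B mu').eps i c' ≤ n := by omega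
    obtain ⟨b1, b0, hb0, h1, h2⟩ := lift F hT i n lam' L nu h0 hna
      (fun j hj => by have := hR j hj; omega) hL1 hL2 J1 hJ1 J2 hJ2
    obtain ⟨b1', b0', hb0', h1', h2'⟩ := lift F hT' i n lam' L nu h0 hna'
      (fun j hj => by have := hR j hj; omega) hL1 hL2 J1 hJ1 J2 hJ2
    have h7 : b0 = b0' := ih lam' b0 b0' _ ⟨mu, _, hb0, hS, rfl⟩ ⟨mu', _, hb0', hS', hs.symm⟩
    subst h7
    rw [← ha] at h2'
    have h3 : b1 = b1' := mor_injective F L J2 (by rw [h2, h2'])
    subst h3
    rw [h1] at h1'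
    exact (Prod.mk.inj h1').2

theorem Sig_wt {l : C.I → ℕ} {w : List C.I} {b : (F.B l).B} {m : List ℕ} (h : F.Sig l w b m) :
    (F.B l).wt b = C.dom l + uw w m := by
  obtain ⟨mu, c, hT, hS, rfl⟩ := h
  have h1 := Th_wt F hT
  have h2 := wt_sd (F.B mu) w c
  have h3 : (F.B mu).strip w c = F.hw mu := hS
  rw [h3, wt_hw_eq] at h2
  rw [h2] at h1
  have h4 : (F.B l).wt b = C.dom l + uw w ((F.B mu).sd w c) + (C.dom mu - C.dom mu) := by
    rw [← add_sub_assoc]
    exact eq_sub_of_add_eq (by rw [h1]; abel)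
  rw [h4, sub_self, add_zero]

theorem Sig_eps (j : C.I) (w : List C.I) : ∀ (l : C.I → ℕ) (b : (F.B l).B) (m : List ℕ),
    F.Sig l w b m → (F.B l).eps j b = ueps j w m := by
  induction w with
  | nil =>
    rintro l b m ⟨mu, c, hT, hS, rfl⟩
    have h1 : c = F.hw mu := hS
    subst h1
    rw [Th_unique F hT (Th_hw F l mu), eps_hw]
    rfl
  | cons i w ih =>
    rintro l b m ⟨mu, c, hT, hS, rfl⟩
    obtain ⟨n, lam', L, nu, h0, hR, hn, hL1, hL2, ⟨J1, hJ1⟩, ⟨J2, hJ2⟩⟩ := setup F l i
      (fun j => (F.B mu).eps j c + (F.B mu).eps j ((F.B mu).emax i c))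
    have hna : (F.B mu).eps i c ≤ n := by omega
    obtain ⟨b1, b0, hb0, h1, h2⟩ := lift F hT i n lam' L nu h0 hna
      (fun j hj => by have := hR j hj; omega) hL1 hL2 J1 hJ1 J2 hJ2
    have hsig : F.Sig lam' w b0 ((F.B mu).sd w ((F.B mu).emax i c)) := ⟨mu, _, hb0, hS, rfl⟩
    have h3 := ih lam' b0 _ hsig
    have h4 := J1.eps_map j b1
    rw [h1] at h4
    have h5 : (F.B l).eps j b + ((F.B nu).eps j (F.hw nu) - (F.B l).phi j b) = (F.B L).eps j b1 :=
      h4
    rw [eps_hw, Nat.zero_sub, add_zero] at h5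
    have h6 := J2.eps_map j b1
    rw [h2] at h6
    have h7 : (F.B lam').eps j b0 + ((F.B (Pi.single i n)).eps j
      ((F.B (Pi.single i n)).down i ((F.B mu).eps i c) (F.hw (Pi.single i n))) -
        (F.B lam').phi j b0) = (F.B L).eps j b1 := h6
    rw [h5, ← h7]
    change _ = (if j = i then ueps j w ((F.B mu).sd w ((F.B mu).emax i c)) +
      ((F.B mu).eps i c - ((ueps j w ((F.B mu).sd w ((F.B mu).emax i c)) : ℤ) +
        uw w ((F.B mu).sd w ((F.B mu).emax i c)) j).toNat)
      else ueps j w ((F.B mu).sd w ((F.B mu).emax i c)))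
    by_cases hj : j = i
    · subst hj
      rw [if_pos rfl, eps_string F j n _ hna, h3]
      have h8 := (F.B lam').phi_eps j b0
      rw [Sig_wt F hsig, h3] at h8
      have h9 : (C.dom lam' + uw w ((F.B mu).sd w ((F.B mu).emax j c))) j =
          uw w ((F.B mu).sd w ((F.B mu).emax j c)) j := by
        rw [Pi.add_apply]
        unfold Cartan.dom
        rw [h0]
        push_cast
        rw [zero_add]
      rw [h9] at h8
      rw [← h8, Int.toNat_natCast]
    · rw [if_neg hj, eps_down_ne F (Pi.single i n) i j hj _ (by rw [Pi.single_eq_same]; exact hna),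
        Nat.zero_sub, add_zero, h3]

theorem Sig_f (j : C.I) (w : List C.I) : ∀ (l : C.I → ℕ) (b d : (F.B l).B) (m m' : List ℕ),
    F.Sig l w b m → (F.B l).f j b = some d → F.Sig l w d m' → m' = uf j w m := by
  induction w with
  | nil =>
    rintro l b d m m' ⟨mu, c, -, -, rfl⟩ - ⟨mu', c', -, -, rfl⟩
    rfl
  | cons i w ih =>
    rintro l b d m m' ⟨mu, c, hT, hS, rfl⟩ hf ⟨mu', c', hT', hS', rfl⟩
    obtain ⟨n, lam', L, nu, h0, hR, hn, hL1, hL2, ⟨J1, hJ1⟩, ⟨J2, hJ2⟩⟩ := setup F l i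
      (fun j => (F.B mu).eps j c + (F.B mu).eps j ((F.B mu).emax i c) +
        ((F.B mu').eps j c' + (F.B mu').eps j ((F.B mu').emax i c')) +
        ((- uw w ((F.B mu).sd w ((F.B mu).emax i c)) j).toNat + 1))
    have hna : (F.B mu).eps i c ≤ n := by omega
    have hna' : (F.B mu').eps i c' ≤ n := by omega
    obtain ⟨b1, b0, hb0, h1, h2⟩ := lift F hT i n lam' L nu h0 hna
      (fun j hj => by have := hR j hj; omega) hL1 hL2 J1 hJ1 J2 hJ2
    obtain ⟨d1, d0, hd0, h1', h2'⟩ := lift F hT' i n lam' L nu h0 hna'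
      (fun j hj => by have := hR j hj; omega) hL1 hL2 J1 hJ1 J2 hJ2
    set a := (F.B mu).eps i c with ha
    set a' := (F.B mu').eps i c' with ha'
    set r := (F.B mu).sd w ((F.B mu).emax i c) with hr
    set r' := (F.B mu').sd w ((F.B mu').emax i c') with hr'
    have hsb : F.Sig lam' w b0 r := ⟨mu, _, hb0, hS, rfl⟩
    have hsd : F.Sig lam' w d0 r' := ⟨mu', _, hd0, hS', rfl⟩
    -- f_j b1 = d1
    have h3 : (F.T nu l).f j (F.hw nu, b) = some (F.hw nu, d) := by
      have h4 := (F.B l).phi_some j b d hf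
      change (if (F.B l).phi j b ≤ (F.B nu).eps j (F.hw nu) then _ else
        ((F.B l).f j b).map (fun x => (F.hw nu, x))) = _
      rw [if_neg (by rw [eps_hw]; omega), hf]
      rfl
    have h5 : (F.B L).f j b1 = some d1 := by
      have h6 := J1.map_f j b1
      rw [h1, h3] at h6
      obtain ⟨x, hx, hx'⟩ := Option.map_eq_some_iff.mp h6.symm
      rw [hx]
      congr 1
      exact mor_injective F L J1 (by rw [hx', h1'])
    have h7 := J2.map_f j b1
    rw [h2, h5] at h7
    change (if (F.B lam').phi j b0 ≤ (F.B (Pi.single i n)).eps j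
        ((F.B (Pi.single i n)).down i a (F.hw (Pi.single i n))) then
        ((F.B (Pi.single i n)).f j
          ((F.B (Pi.single i n)).down i a (F.hw (Pi.single i n)))).map (fun x => (x, b0))
      else ((F.B lam').f j b0).map (fun x =>
        ((F.B (Pi.single i n)).down i a (F.hw (Pi.single i n)), x))) = some (J2.map d1) at h7
    rw [h2'] at h7
    have hphi := (F.B lam').phi_eps j b0
    rw [Sig_wt F hsb, Sig_eps F j w _ _ _ hsb, Pi.add_apply] at hphi
    change a' :: r' = (if j = i ∧ ((ueps j w r : ℤ) + uw w r j).toNat ≤ a then (a + 1) :: r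
      else a :: uf j w r)
    by_cases hj : j = i
    · subst hj
      have h8 : C.dom lam' j = 0 := by unfold Cartan.dom; rw [h0]; rfl
      rw [h8, zero_add] at hphi
      rw [← hphi, Int.toNat_natCast]
      rw [eps_string F j n a hna] at h7
      by_cases hc : (F.B lam').phi j b0 ≤ a
      · rw [if_pos hc] at h7
        rw [if_pos ⟨rfl, hc⟩]
        obtain ⟨y, hy, hy'⟩ := Option.map_eq_some_iff.mp h7
        obtain ⟨h9, h10⟩ := Prod.mk.inj hy'
        subst h10
        have h11 := (F.B (Pi.single j n)).eps_some j _ _ (((F.B (Pi.single j n)).f_iff j _ _).mp hy)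
        rw [h9, eps_string F j n a' hna', eps_string F j n a hna] at h11
        rw [h11, Sig_unique F w _ _ _ _ hsd hsb]
      · rw [if_neg hc] at h7
        rw [if_neg (fun h => hc h.2)]
        obtain ⟨y, hy, hy'⟩ := Option.map_eq_some_iff.mp h7
        obtain ⟨h9, h10⟩ := Prod.mk.inj hy'
        subst h10
        have h11 := congrArg ((F.B (Pi.single j n)).eps j) h9
        rw [eps_string F j n a' hna', eps_string F j n a hna] at h11
        rw [← h11, ih lam' b0 y r r' hsb hy hsd]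
    · rw [if_neg (fun h => hj h.1)]
      rw [eps_down_ne F (Pi.single i n) i j hj a (by rw [Pi.single_eq_same]; exact hna)] at h7
      have h8 : ¬ (F.B lam').phi j b0 ≤ 0 := by
        intro h9
        have h10 := hR j hj
        have h11 : (F.B lam').phi j b0 = 0 := by omega
        rw [h11] at hphi
        have h12 : C.dom lam' j = (lam' j : ℤ) := rfl
        rw [h12] at hphi
        push_cast at hphi
        omega
      rw [if_neg h8] at h7
      obtain ⟨y, hy, hy'⟩ := Option.map_eq_some_iff.mp h7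
      obtain ⟨h9, h10⟩ := Prod.mk.inj hy'
      subst h10
      have h11 := congrArg ((F.B (Pi.single i n)).eps i) h9
      rw [eps_string F i n a' hna', eps_string F i n a hna] at h11
      rw [← h11, ih lam' b0 y r r' hsb hy hsd]

end Pool.Agent.H59.KY
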